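import Pool.Agent.H72.ONE1.Fcl

/-!
# The row of the height of the target, for the labels of a class

`nf_use`: `NfU` from the row over the context.
-/

set_option autoImplicit false

namespace Pool.ONE62

open Finset Real
open Pool.Agent.H49.Ent Pool.Agent.H32.Dense Pool.STK Pool.KA Pool.KSAT Pool.K2S Pool.PB Pool.GEN
open Pool.S6C Pool.LA91 Pool.RCD Pool.OWN72 Pool.ONE72

/-- **The row over the context** for one event. -/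
def NfB {J : ℕ} (F : Fam 4 J) (B : F.Ω → Prop) (y u v t : Fin 4) (r : ℝ → ℝ) (av E ϖ η : ℝ) :
    Prop :=
  ∀ (𝒵 𝒱 : Type) (z : F.Ω → 𝒵) (zv : F.Ω → 𝒱)
    (hu hv hn gu gv gn : F.Ω → ℝ) (D C : ℝ)
    (w X Lu Lv Ln mm M wv e ℓu Lu' su ℓv Lv' sv ℓn Ln' sn : ℕ),
    0 ≤ D → Tri F B y u v t z hu hv hn D (w + Ln + M) →
    (∀ ω ω', B ω → B ω' → z ω = z ω' → F.Z ω = F.Z ω') →
    w + X ≤ J → mm ≤ X → M ≤ X → w + Lu + mm ≤ J → w + Lv + mm ≤ J → w + Ln + M ≤ J →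
    Lin F B w hu gu → Lin F B w hv gv → Lin F B w hn gn →
    (∀ ω, B ω → |gu ω| * 2 ^ Lu ≤ 1) → (∀ ω, B ω → |gv ω| * 2 ^ Lv ≤ 1) →
    (∀ ω, B ω → |gn ω| * 2 ^ Ln ≤ 1) → wv ≤ ⌊av * J⌋₊ →
    (∃ z' : LnT F → 𝒵, ∀ ω, B ω → z ω = z' (slam F w ω)) →
    (∃ (f : PtT F → 𝒱) (g' : LnT F → 𝒱), ∀ ω, B ω → zv ω = f (ptr F J ω) ∧
      zv ω = g' (slam F wv ω)) →
    (∀ ω ω', B ω → B ω' → zv ω = zv ω' → z ω = z ω' ∧ F.X wv ω y = F.X wv ω' y) →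
    wv ≤ w + mm →
    Rp F B y hu gu zv ℓu Lu' su C → Rp F B y hv gv zv ℓv Lv' sv C →
    Rp F B y hn gn zv ℓn Ln' sn C →
    2 * C * 2 ^ (w + Lu + mm) ≤ 2 ^ (ℓu + e) → 2 * C * 2 ^ (w + Lv + mm) ≤ 2 ^ (ℓv + e) →
    2 * C * 2 ^ (w + Ln + M) ≤ 2 ^ (ℓn + e) →
    w + Lu + mm ≤ su + (w + mm) + e → w + Lv + mm ≤ sv + (w + mm) + e →
    w + Ln + M ≤ sn + (w + mm) + e →
    ∀ i ≤ M, ∀ G : F.Ω → Prop, ϖ ≤ Pe (Pool.Agent.H49.Ent.cond F.p B True) G →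
    CH (Pool.Agent.H49.Ent.cond (Pool.Agent.H49.Ent.cond F.p B True) G True)
      (fun ω => ⌊(2 : ℝ) ^ (w + Ln + M) * hn ω⌋)
      (fun ω => (⌊(2 : ℝ) ^ (w + Ln + i) * hn ω⌋,
        ctxK F y z hu hv w X (w + Lu) (w + Lv) mm ω)) ≤
      (r (((w + Ln + M : ℕ) : ℝ) / J) - r (((w + Ln + i : ℕ) : ℝ) / J)) * Real.log 2 * J +
      (((w : ℝ) + mm - wv) + ((J : ℝ) - (w + mm)) + ((J : ℝ) - (w + Lu + mm)) +
        ((J : ℝ) - (w + Lv + mm)) - E * J + 3 * e + 30) * Real.log 2 +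
      4 * Real.log (2 * D + 5) + η * J

/-- **The row of the height of the target**, for the labels of the class. -/
theorem nf_use_of {S : PCl 4} {y u v t : Fin 4} {rr : ℝ → ℝ}
    {κ : ∀ (J : ℕ) (F : Fam 4 J), PtT F → Fin 4 → ℝ} {w Nu Nv Nn : Fin 3 → ℝ}
    {Nl P E mr Mr M' e e2 s q av EE h ϖ ηr ηt dr : ℝ}
    (hn : NumC w Nu Nv Nn Nl P E mr Mr M' e e2 s q av)
    (hcls : ∀ ρ η : ℝ, 0 < ρ → 0 < η →
      Bas S (fun J F A => NfB F A y u v t rr av (EE - ρ) ϖ η))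
    (hcount : 3 - w 1 - 2 * w 0 - Nu 0 - Nv 0 - 2 * mr + 2 * e + 3 * e2 - EE + q ≤ ηt)
    (hrate : ∀ a b : ℝ, w 0 + Nn 0 - e - q ≤ a → a ≤ b → b ≤ w 0 + Nn 0 + Mr →
      rr b - rr a ≤ (1 - h) * (b - a) + ηr)
    (hMm : Mr + s + q ≤ mr + e2) (h0 : h ≤ 1) (hηr : 0 ≤ ηr) (hηt : 0 ≤ ηt) (hsum : ηr + ηt + 4 * s + q ≤ dr)
    {e' : ℝ} (he' : 0 < e') (he'e : e' ≤ e) :
    NfU S y u v t κ w Nu Nv Nn Nl E mr Mr e' s h ϖ dr := by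
  have hn' := hn.loss he' he'e
  have q0 := hn.q0
  obtain ⟨J₁, hJ₁⟩ := exists_nat_ge ((400 : ℝ) / q)
  unfold NfU
  refine Bas.mono J₁ (hcls (q / 8) (q / 8) (by linarith) (by linarith)) ?_
  rintro J hJ F A hA f γ γc hL V₁ z₁ hR 𝒵 z hz hzl X hX i hi G hG
  have hJ0 : (0 : ℝ) ≤ J := Nat.cast_nonneg J
  have g1 : 400 ≤ q * J := by
    have h1 : (J₁ : ℝ) ≤ J := by exact_mod_cast hJ
    have := hJ₁.trans h1
    rw [div_le_iff₀ q0] at this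
    linarith
  have hJ1 : (0 : ℝ) < J := by
    by_contra hcon
    have h1 : (J : ℝ) = 0 := le_antisymm (not_lt.1 hcon) hJ0
    rw [h1, mul_zero] at g1
    linarith
  obtain ⟨nn, hX1, hX2, hX3⟩ := numN_of hn' (J := J) (by linarith) hX
  obtain ⟨W, hW⟩ : ∃ W, W = WJ w J := ⟨_, rfl⟩
  obtain ⟨L, hLe⟩ : ∃ L, L = LJ Nu Nv Nn e' J := ⟨_, rfl⟩
  obtain ⟨sz, hsz⟩ : ∃ sz, sz = sJ E s J := ⟨_, rfl⟩
  obtain ⟨se, hse⟩ : ∃ se, se = ⌊s * (J : ℝ)⌋₊ := ⟨_, rfl⟩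
  obtain ⟨mm, hmm⟩ : ∃ mm, mm = ⌊mr * (J : ℝ)⌋₊ := ⟨_, rfl⟩
  obtain ⟨M, hM⟩ : ∃ M, M = ⌊Mr * (J : ℝ)⌋₊ := ⟨_, rfl⟩
  obtain ⟨ee, hee⟩ : ∃ ee, ee = ⌊e2 * (J : ℝ)⌋₊ := ⟨_, rfl⟩
  rw [← hmm, ← hM] at nn
  rw [← hM] at hi ⊢
  rw [← hmm]
  rw [← hse, ← hee] at nn
  rw [← hse] at hL hR
  rw [← hW, ← hLe, ← hsz] at nn hL
  rw [← hW, ← hLe] at hR ⊢
  rw [← hW] at hz
  have hl2 : Real.log 2 ≤ 1 := by
    have := Real.log_le_sub_one_of_pos (show (0 : ℝ) < 2 by norm_num)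
    linarith
  have hl20 : 0 < Real.log 2 := Real.log_pos one_lt_two
  -- the records
  obtain ⟨zv, hzv⟩ : ∃ zv : F.Ω → 𝒵 × V₁, zv = fun ω => (z ω, z₁ ω) := ⟨_, rfl⟩
  have hzv1 : ∀ ω ω', zv ω = zv ω' → z ω = z ω' ∧ z₁ ω = z₁ ω' := by
    intro ω ω' e1
    rw [hzv] at e1
    exact Prod.mk.inj e1
  obtain ⟨⟨φ, hφ⟩, ⟨ψ, hψ⟩⟩ := hz
  obtain ⟨⟨φ₁, hφ₁⟩, ⟨ψ₁, hψ₁⟩⟩ := hR.cl
  obtain ⟨μ, hμ⟩ : ∃ μ : LnT F → LnT F, ∀ ω, slam F (W 0) ω = μ (slam F (W 1) ω) :=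
    ⟨fun s => (s.1, s.2.1, s.2.2 / 2 ^ (W 1 - W 0)), fun ω => slam_coarse F nn.w01 nn.w1J ω⟩
  have cf := hL.cf
  have hlin : ∀ j, Lin F A (W 0) (oh F y (h3v F u v t f (fun p => κ J F p u)
      (fun p => κ J F p v) j) (γ 0 j) (γc 0 j))
      (ov F y (g3v F u v t f (fun p => κ J F p u) (fun p => κ J F p v) j) (γ 0 j) (γc 0 j)) :=
    fun j => oh_lin (h3v_lin hL.cf hL.cu hL.cv j) (hL.ca 0 j) (hL.cc 0 j)
  have hrp : ∀ j, Rp F A y (oh F y (h3v F u v t f (fun p => κ J F p u)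
      (fun p => κ J F p v) j) (γ 0 j) (γc 0 j))
      (ov F y (g3v F u v t f (fun p => κ J F p u) (fun p => κ J F p v) j) (γ 0 j) (γc 0 j)) zv
      (W 1 + L 1 j) (L 1 j) (L 0 j - se) 7 :=
    fun j => (hR.rp j).det fun ω ω' _ _ e1 => (hzv1 ω ω' e1).2
  have htri := tri_of hL hzl (nt := W 0 + L 0 2 + M) nn.tn nn.ss nn.s0
  have seL := nn.seL
  have see := nn.see
  have e20 : 0 ≤ e2 := by linarith [hn.se, hn.s0]
  obtain ⟨m1, m2⟩ := fl_two (x := mr) hn.m0 J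
  obtain ⟨p1, p2⟩ := fl_two (x := Mr) hn.M0 J
  obtain ⟨r1, r2⟩ := fl_two (x := s) hn.s0.le J
  obtain ⟨v1, v2⟩ := fl_two (x := e2) e20 J
  rw [← hmm] at m1 m2
  rw [← hM] at p1 p2
  rw [← hse] at r1 r2
  rw [← hee] at v1 v2
  have hMm' : M + se ≤ mm + ee := by
    have h1 := mul_le_mul_of_nonneg_right hMm hJ0
    rw [← Nat.cast_le (α := ℝ)]
    push_cast
    linarith
  have key := hA 𝒵 (𝒵 × V₁) z zv _ _ _ _ _ _ (2 * 2 ^ sz 1 + 3) 7 (W 0) X (L 0 0) (L 0 1) (L 0 2)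
    mm M (W 1) ee (W 1 + L 1 0) (L 1 0) (L 0 0 - se) (W 1 + L 1 1) (L 1 1) (L 0 1 - se)
    (W 1 + L 1 2) (L 1 2) (L 0 2 - se) (by positivity) htri
    (fun ω ω' a b e1 => (lb0_eq (hzl ω ω' a b e1)).2.2.2.1)
    (nn.wX.trans nn.w2J) nn.mX nn.MX nn.tu nn.tv (by have := nn.tn; omega)
    (hlin 0) (hlin 1) (hlin 2) (hL.rep 0 0) (hL.rep 0 1) (hL.rep 0 2)
    nn.av
    ⟨ψ, hψ⟩
    ⟨fun x => (φ x, φ₁ x), fun x => (ψ (μ x), ψ₁ x), fun ω hω => by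
      constructor
      · rw [hzv]
        exact Prod.ext (hφ ω hω) (hφ₁ ω hω)
      · rw [hzv]
        refine Prod.ext ?_ (hψ₁ ω hω)
        show z ω = ψ (μ (slam F (W 1) ω))
        rw [← hμ ω]
        exact hψ ω hω⟩
    (fun ω ω' a b e1 => ⟨(hzv1 ω ω' e1).1, hR.dx ω ω' a b (hzv1 ω ω' e1).2⟩)
    nn.vm (hrp 0) (hrp 1) (hrp 2)
    (pw14 (by have := nn.fu; omega)) (pw14 (by have := nn.fv; omega))
    (pw14 (by have := nn.fn; omega))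
    (by have := seL 0; omega) (by have := seL 1; omega)
    (by have := seL 2; omega) i hi G hG
  refine key.trans ?_
  -- numbers
  have hsz1 : sz 1 = se := by rw [hsz, hse]; rfl
  have hW0 : W 0 = ⌊w 0 * (J : ℝ)⌋₊ := by rw [hW]; rfl
  have hW1 : W 1 = ⌊w 1 * (J : ℝ)⌋₊ := by rw [hW]; rfl
  have hL0 : L 0 0 = ⌊(Nu 0 - e') * (J : ℝ)⌋₊ := by rw [hLe]; rfl
  have hL1 : L 0 1 = ⌊(Nv 0 - e') * (J : ℝ)⌋₊ := by rw [hLe]; rfl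
  have hL2 : L 0 2 = ⌊(Nn 0 - e') * (J : ℝ)⌋₊ := by rw [hLe]; rfl
  have s0 := hn.s0
  obtain ⟨a1, a2⟩ := fl_two (x := w 0) hn.w0.le J
  obtain ⟨b1, b2⟩ := fl_two (x := w 1) (hn.w0.le.trans hn.w01) J
  obtain ⟨c1, c2⟩ := fl_two (x := Nu 0 - e') (by linarith [hn'.su]) J
  obtain ⟨d1, d2⟩ := fl_two (x := Nv 0 - e') (by linarith [hn'.sv]) J
  obtain ⟨f1, f2⟩ := fl_two (x := Nn 0 - e') (by linarith [hn'.sn]) J
  rw [← hW0] at a1 a2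
  rw [← hW1] at b1 b2
  rw [← hL0] at c1 c2
  rw [← hL1] at d1 d2
  rw [← hL2] at f1 f2
  have heJ : e' * (J : ℝ) ≤ e * J := mul_le_mul_of_nonneg_right he'e hJ0
  have he'J : 0 ≤ e' * (J : ℝ) := mul_nonneg he'.le hJ0
  -- the logarithm
  have hlog : Real.log (2 * (2 * 2 ^ sz 1 + 3) + 5) ≤ s * J + 4 := by
    have h1 : (2 : ℝ) * (2 * 2 ^ sz 1 + 3) + 5 ≤ 2 ^ (sz 1 + 4) := by
      have h2 : (1 : ℝ) ≤ 2 ^ sz 1 := one_le_pow₀ (by norm_num)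
      rw [pow_add]
      norm_num
      linarith
    have h3 : (0 : ℝ) < 2 * (2 * 2 ^ sz 1 + 3) + 5 := by positivity
    have h4 := Real.log_le_log h3 h1
    rw [Real.log_pow, hsz1] at h4
    push_cast at h4
    have h5 : ((se : ℝ) + 4) * Real.log 2 ≤ ((se : ℝ) + 4) * 1 :=
      mul_le_mul_of_nonneg_left hl2 (by positivity)
    rw [hsz1]
    linarith
  -- the rates
  have hrt : (rr (((W 0 + L 0 2 + M : ℕ) : ℝ) / J) - rr (((W 0 + L 0 2 + i : ℕ) : ℝ) / J)) *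
      Real.log 2 * J ≤ (1 - h) * ((M : ℝ) - i) * Real.log 2 + ηr * J := by
    have h1 := hrate (((W 0 + L 0 2 + i : ℕ) : ℝ) / J) (((W 0 + L 0 2 + M : ℕ) : ℝ) / J) (by
        rw [le_div_iff₀ hJ1]
        push_cast
        have h2 : (0 : ℝ) ≤ i := Nat.cast_nonneg i
        linarith) (div_le_div_of_nonneg_right (by exact_mod_cast (by omega)) hJ0) (by
        rw [div_le_iff₀ hJ1]
        push_cast
        linarith)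
    have h2 : ((W 0 + L 0 2 + M : ℕ) : ℝ) / J - ((W 0 + L 0 2 + i : ℕ) : ℝ) / J =
        ((M : ℝ) - i) / J := by
      push_cast
      ring
    rw [h2] at h1
    have h3 : (0 : ℝ) ≤ Real.log 2 * J := mul_nonneg hl20.le hJ0
    have h4 := mul_le_mul_of_nonneg_right h1 h3
    have h5 : ((1 - h) * (((M : ℝ) - i) / J) + ηr) * (Real.log 2 * J) =
        (1 - h) * ((M : ℝ) - i) * Real.log 2 + ηr * (Real.log 2 * J) := by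
      field_simp
    have h6 : ηr * (Real.log 2 * J) ≤ ηr * (1 * J) :=
      mul_le_mul_of_nonneg_left (mul_le_mul_of_nonneg_right hl2 hJ0) hηr
    rw [h5] at h4
    linarith
  -- the count
  have hct : ((((W 0 : ℕ) : ℝ) + mm - W 1) + ((J : ℝ) - (W 0 + mm)) +
      ((J : ℝ) - (W 0 + L 0 0 + mm)) + ((J : ℝ) - (W 0 + L 0 1 + mm)) - (EE - q / 8) * J +
      3 * ee + 30) ≤ ηt * J := by
    have h1 := mul_le_mul_of_nonneg_right hcount hJ0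
    linarith
  have hct' : ((((W 0 : ℕ) : ℝ) + mm - W 1) + ((J : ℝ) - (W 0 + mm)) +
      ((J : ℝ) - (W 0 + L 0 0 + mm)) + ((J : ℝ) - (W 0 + L 0 1 + mm)) - (EE - q / 8) * J +
      3 * ee + 30) * Real.log 2 ≤ ηt * J := by
    have h1 := mul_le_mul_of_nonneg_right hct hl20.le
    have h2 : ηt * J * Real.log 2 ≤ ηt * J * 1 :=
      mul_le_mul_of_nonneg_left hl2 (mul_nonneg hηt hJ0)
    linarith
  have hfin := mul_le_mul_of_nonneg_right hsum hJ0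
  linarith

end Pool.ONE62
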