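import Pool.Agent.H72.OWN.Act2
import Pool.Agent.H6.OWN.Dps

/-!
# The activity of an active coordinate is linear near zero

`act_rate`: from the numbers of activity of a class.
-/

set_option autoImplicit false

namespace Pool.ONE62

open Finset Real MeasureTheory
open Pool.Agent.H49.Ent Pool.Agent.H32.Dense Pool.STK Pool.KA Pool.KSAT Pool.K2S Pool.PB Pool.S6C
open Pool.GEN Pool.REX Pool.REX83 Pool.OWN72

variable {m n J : ℕ}

/-- **The activity of an active coordinate is linear near zero.** -/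
theorem act_rate {S : PCl m} (hpos : Bas S (fun _ F A => 0 < Pe F.p A)) {y : Fin m}
    {Na : ℚ → ℚ → ℝ} {al : ℝ} {g₀ : ℝ → ℝ} (hal : 0 < al) (hg₀ : ∀ e, 0 < e → 0 < g₀ e)
    (hM : ActM Na al g₀) (hB : ActB Na S y) :
    ∃ c₀ : ℝ, 0 < c₀ ∧ ∃ x₀ : ℝ, 0 < x₀ ∧ ∀ x : ℝ, 0 < x → x ≤ x₀ →
      Bas S (fun J F A => c₀ * x * J ≤ CH (Pool.Agent.H49.Ent.cond F.p A True)
        (fun ω => F.D ⌊x * J⌋₊ ω y) (ptr F J)) := by
  have hl2 : 0 < Real.log 2 := Real.log_pos one_lt_two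
  obtain ⟨e, he⟩ : ∃ e : ℝ, e = min (al / 2) (1 / 2) := ⟨_, rfl⟩
  have he0 : 0 < e := by rw [he]; exact lt_min (by linarith) (by norm_num)
  have he1 : e ≤ al / 2 := by rw [he]; exact min_le_left _ _
  have he2 : e ≤ 1 / 2 := by rw [he]; exact min_le_right _ _
  refine ⟨al / 8 * Real.log 2, by positivity, min (g₀ e) 1, lt_min (hg₀ e he0) one_pos, ?_⟩
  intro g hg hgx
  obtain ⟨q, hq0, hq1⟩ := exists_rat_btwn (show g / 2 < g by linarith)
  have hq2 : (q : ℝ) ≤ g₀ e := hq1.le.trans (hgx.trans (min_le_left _ _))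
  have hq3 : (q : ℝ) ≤ g := hq1.le
  have hq4 : (q : ℝ) ≤ 1 := hq1.le.trans (hgx.trans (min_le_right _ _))
  have hq00 : (0 : ℝ) < q := by linarith
  have hq0' : (0 : ℚ) < q := by exact_mod_cast hq00
  have hN : (al - e) * (q : ℝ) ≤ Na 0 q := by
    by_contra hcon
    push Not at hcon
    have h1 := hM e he0 q hq0' hq2 1
    have h2 : ((range 1).filter fun i : ℕ => Na (i * (q / (1 : ℕ))) ((i + 1) * (q / (1 : ℕ))) <
        (al - e) * ((q : ℝ) / (1 : ℕ))) = range 1 := by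
      refine Finset.filter_true_of_mem fun i hi => ?_
      have h3 : i = 0 := by simpa using hi
      subst h3
      simpa using hcon
    rw [h2] at h1
    simp at h1
    linarith
  have hN1 : al / 2 * (g / 2) ≤ Na 0 q := by
    refine le_trans (mul_le_mul (by linarith) hq0.le (by positivity) (by linarith)) hN
  have hN0 : 0 < Na 0 q := by
    have : 0 < al / 2 * (g / 2) := by positivity
    linarith
  refine Bas.mono 0 ((hB 0 q le_rfl hq0'.le (by exact_mod_cast hq4) (Na 0 q / 2)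
    (by linarith)).and hpos) ?_
  rintro J - F A ⟨h1, h2⟩
  have hnn := (isLaw_cond F.isLaw h2).nonneg
  have h3 : CH (Pool.Agent.H49.Ent.cond F.p A True) (fun ω => F.D ⌊((q : ℚ) : ℝ) * J⌋₊ ω y)
      (fun ω => (F.D ⌊((0 : ℚ) : ℝ) * J⌋₊ ω, (F.X J ω, F.W ω))) ≤
      CH (Pool.Agent.H49.Ent.cond F.p A True) (fun ω => F.D ⌊((q : ℚ) : ℝ) * J⌋₊ ω y)
        (ptr F J) :=
    CH_mono_cond hnn fun ω ω' _ _ e => (Prod.ext_iff.1 e).2
  have h4 : CH (Pool.Agent.H49.Ent.cond F.p A True) (fun ω => F.D ⌊((q : ℚ) : ℝ) * J⌋₊ ω y)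
        (ptr F J) ≤ CH (Pool.Agent.H49.Ent.cond F.p A True) (fun ω => F.D ⌊g * J⌋₊ ω y)
        (ptr F J) := by
    refine CH_mono_left hnn fun ω ω' _ _ e => ?_
    have e1 : F.D ⌊g * J⌋₊ ω y = F.D ⌊g * J⌋₊ ω' y := (Prod.ext_iff.1 e).1
    have hk : ⌊((q : ℚ) : ℝ) * J⌋₊ ≤ ⌊g * J⌋₊ :=
      Nat.floor_le_floor (mul_le_mul_of_nonneg_right hq3 (Nat.cast_nonneg J))
    have h5 := Pool.STK.B58.fl_fine (m := 1) (x := fun _ => F.d ω y) (y := fun _ => F.d ω' y) hk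
      (by funext i; exact e1)
    exact congrFun h5 0
  have hJ0 : (0 : ℝ) ≤ J := Nat.cast_nonneg J
  have e3 : al / 8 * Real.log 2 * g * J ≤ Na 0 q / 2 * Real.log 2 * J := by
    have a1 : al / 8 * g ≤ Na 0 q / 2 := by linarith
    have a2 := mul_le_mul_of_nonneg_right a1 (mul_nonneg hl2.le hJ0)
    linarith
  have e2 : (Na 0 q - Na 0 q / 2) * Real.log 2 * J = Na 0 q / 2 * Real.log 2 * J := by ring
  have h6 : (Na 0 q - Na 0 q / 2) * Real.log 2 * J ≤ _ := h1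
  rw [e2] at h6
  exact e3.trans (h6.trans (h3.trans h4))

end Pool.ONE62
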