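import Pool.Agent.H72.ONE1.Mdf
import Pool.Agent.H45.EXA.Lam

/-!
# Fixed data, and the thresholds of the labels of a modified velocity

`fix_data`: data which exist on large parts of all events of a class are fixed for each family, in a
subclass. `mnum_ext_ct`, `mnum_ext`: the thresholds of the affine labels of functions over the
velocity of a coordinate exist in a subclass.
-/

set_option autoImplicit false

namespace Pool.ONE62

open Finset Real
open Pool.Agent.H49.Ent Pool.Agent.H32.Dense Pool.STK Pool.KA Pool.KSAT Pool.K2S Pool.PB Pool.GEN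
open Pool.S6C Pool.OWN72 Pool.ONE72

variable {m : ℕ}

/-- **Fixed data.** If each event of the class has a large part with a datum `d` for which
`G J F B d`, then there are data for the families such that `G` holds for them, on all events of a
nonempty subclass. -/
theorem fix_data {S : PCl m} (hS : S.Ne) {D : ∀ J : ℕ, Fam m J → Type}
    [hD : ∀ (J : ℕ) (F : Fam m J), Nonempty (D J F)] {κ₀ : ℝ} (hκ : 0 < κ₀)
    {G : ∀ (J : ℕ) (F : Fam m J), (F.Ω → Prop) → D J F → Prop}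
    (hsub : ∀ (J : ℕ) (F : Fam m J) (A B : F.Ω → Prop) (d : D J F), G J F A d → Sub B A →
      G J F B d)
    (h : Bas S (fun J F A => ∃ B : F.Ω → Prop, Sub B A ∧ κ₀ * Pe F.p A ≤ Pe F.p B ∧
      ∃ d, G J F B d)) :
    ∃ S' : PCl m, S'.Ne ∧
      (∀ (τ : ℝ) (J : ℕ) (F : Fam m J) (A : F.Ω → Prop), S'.St τ J F A → S.St τ J F A) ∧
      ∃ d : ∀ (J : ℕ) (F : Fam m J), D J F, ∀ (τ : ℝ) (J : ℕ) (F : Fam m J) (A : F.Ω → Prop),
        S'.St τ J F A → G J F A (d J F) := by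
  classical
  obtain ⟨P, hP⟩ : ∃ P : ℕ → ∀ (J : ℕ) (_ : Fam m J), Prop, P = fun (k : ℕ) J F =>
    ∃ (B : F.Ω → Prop) (d : D J F), S.St (1 / ((k : ℝ) + 1)) J F B ∧ G J F B d := ⟨_, rfl⟩
  obtain ⟨τ₀, hτ₀, J₁, hb⟩ := h
  -- there are data for arbitrarily small defects
  have hex : ∀ k J₂ : ℕ, ∃ J ≥ J₂, ∃ F : Fam m J, P k J F := by
    intro k J₂
    obtain ⟨c, hc⟩ : ∃ c : ℝ, c = 1 / ((k : ℝ) + 1) / 2 := ⟨_, rfl⟩
    have hc0 : 0 < c := by rw [hc]; positivity
    obtain ⟨J₃, hJ₃⟩ := exists_nat_ge (-Real.log κ₀ / c)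
    obtain ⟨J, hJ, F, A, hA⟩ := hS (min τ₀ c) (lt_min hτ₀ hc0) (max J₁ (max J₂ J₃))
    have j1 : J₁ ≤ J := (le_max_left _ _).trans hJ
    have j2 : J₂ ≤ J := (le_max_left _ _).trans ((le_max_right _ _).trans hJ)
    have j3 : (J₃ : ℝ) ≤ J := by
      exact_mod_cast (le_max_right _ _).trans ((le_max_right _ _).trans hJ)
    obtain ⟨B, hB, hPB, d, hd⟩ := hb J j1 F A (S.mono (min_le_left _ _) hA)
    refine ⟨J, j2, F, ?_⟩
    rw [hP]
    refine ⟨B, d, S.mono ?_ (S.res hc0.le hA hB (le_trans ?_ hPB)), hd⟩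
    · have h1 : min τ₀ c ≤ c := min_le_right _ _
      have h2 : c + c = 1 / ((k : ℝ) + 1) := by rw [hc]; ring
      linarith
    · refine mul_le_mul_of_nonneg_right ?_ (Pe_nonneg F.isLaw A)
      have h1 := hJ₃.trans j3
      rw [div_le_iff₀ hc0] at h1
      have h2 : -(c * J) ≤ Real.log κ₀ := by linarith
      have h3 := Real.exp_le_exp.2 h2
      rwa [Real.exp_log hκ] at h3
  -- the choice
  have sel : ∀ (J : ℕ) (F : Fam m J), ∃ (B : F.Ω → Prop) (d : D J F), ∀ k ≤ J, P k J F →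
      S.St (1 / ((k : ℝ) + 1)) J F B ∧ G J F B d := by
    intro J F
    by_cases hk : ∃ k ≤ J, P k J F
    · obtain ⟨k₀, hk₀, hPk₀⟩ := hk
      obtain ⟨K, hK⟩ : ∃ K, K = Nat.findGreatest (fun k => P k J F) J := ⟨_, rfl⟩
      have h1 : P K J F := by
        rw [hK]
        exact Nat.findGreatest_spec (P := fun k => P k J F) hk₀ hPk₀
      have h4 : ∀ k ≤ J, P k J F → k ≤ K := fun k hk hPk => by
        rw [hK]
        exact Nat.le_findGreatest hk hPk
      rw [hP] at h1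
      obtain ⟨B, d, h2, h3⟩ := h1
      refine ⟨B, d, fun k hk hPk => ⟨S.mono ?_ h2, h3⟩⟩
      refine one_div_le_one_div_of_le (by positivity) ?_
      have h5 : (k : ℝ) ≤ K := by exact_mod_cast h4 k hk hPk
      linarith
    · refine ⟨fun _ => False, (hD J F).some, fun k hk' hPk => absurd ⟨k, hk', hPk⟩ hk⟩
  choose Bf df hsel using sel
  refine ⟨{ St := fun τ J F A => S.St τ J F A ∧ (∃ k ≤ J, P k J F) ∧ Sub A (Bf J F)
            mono := fun hle hA => ⟨S.mono hle hA.1, hA.2⟩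
            res := fun h0 hA hB hPB => ⟨S.res h0 hA.1 hB hPB, hA.2.1,
              fun ω hω => hA.2.2 ω (hB ω hω)⟩ }, ?_, fun τ J F A hA => hA.1, df, ?_⟩
  · intro τ hτ J₂
    obtain ⟨k, hk⟩ := exists_nat_one_div_lt hτ
    obtain ⟨J, hJ, F, hF⟩ := hex k (max J₂ k)
    have hkJ : k ≤ J := (le_max_right _ _).trans hJ
    exact ⟨J, (le_max_left _ _).trans hJ, F, Bf J F, S.mono hk.le (hsel J F k hkJ hF).1,
      ⟨k, hkJ, hF⟩, fun _ h => h⟩
  · rintro τ J F A ⟨-, ⟨k, hk, hPk⟩, hA⟩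
    exact hsub J F _ _ _ (hsel J F k hk hPk).2 hA

/-! ### Thresholds -/

/-- The property with a threshold: labels of the function `g` over the velocity of `y`. -/
noncomputable def mth (y : Fin m) (g : ∀ (J : ℕ) (F : Fam m J), F.Ω → ℝ) (w : ℝ) : Thr m where
  Q s J F A := s ≤ 0 ∨ ∃ γ γc : PtT F → ℝ, MLb F A y (g J F) ⌊w * J⌋₊ ⌊s * J⌋₊ γ γc
  her := by
    rintro s J F A B hB (h | ⟨γ, γc, h⟩)
    · exact Or.inl h
    · exact Or.inr ⟨γ, γc, h.sub hB⟩
  anti := by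
    rintro s s' J F A hs (h | ⟨γ, γc, h⟩)
    · exact Or.inl (hs.trans h)
    · exact Or.inr ⟨γ, γc, h.anti
        (Nat.floor_le_floor (mul_le_mul_of_nonneg_right hs (Nat.cast_nonneg J)))⟩
  triv := Or.inl

/-- **The thresholds exist**, for countably many functions. -/
theorem mnum_ext_ct {ι : Type} [Countable ι] {S : PCl m} (hS : S.Ne) (A : ℝ) {B : ℝ} (hB : B ≤ 1)
    (y : ι → Fin m) (g : ι → ∀ (J : ℕ) (F : Fam m J), F.Ω → ℝ) :
    ∃ S' : PCl m, S'.Ne ∧
      (∀ (τ : ℝ) (J : ℕ) (F : Fam m J) (A : F.Ω → Prop), S'.St τ J F A → S.St τ J F A) ∧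
      ∃ N : ι → ℚ → ℝ, ∀ i, MNum S' (y i) (g i) A B (N i) := by
  classical
  rcases isEmpty_or_nonempty ι with hem | hem
  · exact ⟨S, hS, fun _ _ _ _ h => h, fun _ _ => 0, fun i => hem.elim i⟩
  obtain ⟨f, hf⟩ := exists_surjective_nat (ι × ℚ)
  obtain ⟨s, S', h01, hsub, hne, hatt, hno, -⟩ := ext S hS
    (fun n => mth (y (f n).1) (g (f n).1) ((f n).2 : ℝ))
  obtain ⟨k, hk⟩ : ∃ k : ι × ℚ → ℕ, ∀ a, f (k a) = a :=
    ⟨Function.surjInv hf, Function.surjInv_eq hf⟩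
  obtain ⟨N, hN⟩ : ∃ N : ι → ℚ → ℝ, N = fun i w => s (k (i, w)) := ⟨_, rfl⟩
  have N0 : ∀ i w, 0 ≤ N i w := fun i w => by rw [hN]; exact (h01 _).1
  have N1 : ∀ i w, N i w ≤ 1 := fun i w => by rw [hN]; exact (h01 _).2
  have att : ∀ (i : ι) (w : ℚ), ∀ τ > 0, Bas S' ((mth (y i) (g i) w).Q (N i w - τ)) := by
    intro i w τ hτ
    obtain ⟨n, hn⟩ : ∃ n, n = k (i, w) := ⟨_, rfl⟩
    have hfn : f n = (i, w) := by rw [hn, hk]
    have hg0 : (0 : ℝ) < (n : ℝ) + 1 := by positivity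
    refine ⟨min τ (1 / ((n : ℝ) + 1)), lt_min hτ (by positivity), 0, fun J _ F A hA => ?_⟩
    have h2 := hatt n (min τ (1 / ((n : ℝ) + 1))) J F A (by
      calc _ ≤ ((n : ℝ) + 1) * (1 / ((n : ℝ) + 1)) :=
            mul_le_mul_of_nonneg_left (min_le_right _ _) hg0.le
        _ = 1 := by field_simp) hA
    have e1 : N i w = s n := by rw [hN, hn]
    rw [e1]
    simp only [hfn] at h2
    exact (mth (y i) (g i) w).anti (by linarith [min_le_left τ (1 / ((n : ℝ) + 1))]) h2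
  have no : ∀ (i : ι) (w : ℚ), ∀ h : ℝ, N i w < h → h ≤ 1 →
      ∃ ψ > 0, Clp S' ((mth (y i) (g i) w).No h ψ) := by
    intro i w h h1 h2
    obtain ⟨n, hn⟩ : ∃ n, n = k (i, w) := ⟨_, rfl⟩
    have hfn : f n = (i, w) := by rw [hn, hk]
    have e1 : N i w = s n := by rw [hN, hn]
    rw [e1] at h1
    have h3 := hno n h h1 h2
    simp only [hfn] at h3
    exact h3
  refine ⟨S', hne, hsub, N, fun i => ⟨fun w _ _ => N0 i w, fun w _ _ => N1 i w,
    fun w v hw hwv hv => ?_, fun w hw hwB e he heN => ?_, fun w hw hwB e he heN => ?_⟩⟩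
  · -- monotone
    by_contra hcon
    push Not at hcon
    have h1 : (N i w + N i v) / 2 ≤ N i v := by
      refine le_of_att hne (no i v) (by linarith [N1 i w, N1 i v]) fun δ hδ => ?_
      refine Clp.mono (J₂ := 0) (att i w ((N i w - N i v) / 2) (by linarith)).clp ?_
      intro J _ F A' hQ
      refine ⟨A', fun _ h => h, ?_, ?_⟩
      · have : Real.exp (-(δ * J)) ≤ 1 := by
          rw [Real.exp_le_one_iff]
          have : 0 ≤ δ * (J : ℝ) := by positivity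
          linarith
        calc _ ≤ 1 * Pe F.p A' := mul_le_mul_of_nonneg_right this (Pe_nonneg F.isLaw A')
          _ = _ := one_mul _
      · have e : N i w - (N i w - N i v) / 2 = (N i w + N i v) / 2 := by ring
        rw [e] at hQ
        rcases hQ with hQ | ⟨γ, γc, hQ⟩
        · exact Or.inl hQ
        · refine Or.inr ⟨γ, γc, hQ.win (Nat.floor_le_floor
            (mul_le_mul_of_nonneg_right (by exact_mod_cast hwv) (Nat.cast_nonneg J)))
            (fl_le (by linarith) J)⟩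
    linarith
  · -- attained
    refine Bas.mono 0 (att i w e he) ?_
    intro J _ F A' hQ
    rcases hQ with hQ | hQ
    · exfalso
      linarith
    · exact hQ
  · -- absent
    obtain ⟨ψ, hψ, hc⟩ := no i w (N i w + e) (by linarith) heN
    refine Bas.neg (Q := fun J F A' => ∃ γ γc : PtT F → ℝ, MLb F A' (y i) (g i J F)
      ⌊(w : ℝ) * J⌋₊ ⌊(N i w + e) * J⌋₊ γ γc) (fun J F => ?_) ?_
    · rintro A₁ B₁ hB₁ ⟨γ, γc, h⟩
      exact ⟨γ, γc, h.sub hB₁⟩
    · refine Clp.mono (J₂ := 0) hc ?_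
      intro J _ F A' hN' hG
      refine hN' A' (fun _ h => h) ?_ (Or.inr hG)
      have : Real.exp (-(ψ * J)) ≤ 1 := by
        rw [Real.exp_le_one_iff]
        have : 0 ≤ ψ * (J : ℝ) := by positivity
        linarith
      calc _ ≤ 1 * Pe F.p A' := mul_le_mul_of_nonneg_right this (Pe_nonneg F.isLaw A')
        _ = _ := one_mul _

/-- **The thresholds exist.** -/
theorem mnum_ext {S : PCl m} (hS : S.Ne) (A : ℝ) {B : ℝ} (hB : B ≤ 1) (y : Fin m)
    (g : ∀ (J : ℕ) (F : Fam m J), F.Ω → ℝ) :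
    ∃ S' : PCl m, S'.Ne ∧
      (∀ (τ : ℝ) (J : ℕ) (F : Fam m J) (A : F.Ω → Prop), S'.St τ J F A → S.St τ J F A) ∧
      ∃ N : ℚ → ℝ, MNum S' y g A B N := by
  obtain ⟨S', h1, h2, N, h3⟩ := mnum_ext_ct (ι := Unit) hS A hB (fun _ => y) (fun _ => g)
  exact ⟨S', h1, h2, N (), h3 ()⟩

end Pool.ONE62
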