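import Pool.Agent.H17.COR.Frq
import Pool.Agent.H97.MM.Cls

/-!
# FREE at a small rate

`fre_ae`: at almost every point, for every `e > 0` there is a digit number `P` such that the first
`P J` digits of the velocity of `y` are free of the records of two windows in a box of radius `r`
about the point, up to `e r J`, for all small `r`.
-/

set_option autoImplicit false

namespace Pool.ONE62

open Finset Real MvPolynomial MeasureTheory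
open Pool.Agent.H49.Ent Pool.Agent.H32.Dense Pool.STK Pool.KA Pool.KSAT Pool.K2S Pool.PB Pool.S6C
  Pool.GEN Pool.RCD Pool.LA91 Pool.OWN17

variable {m : ℕ}

/-- The numbers of the first digits, given the time and the code. -/
theorem num_dirW {S : PCl m} (hS : S.Ne)
    (hpos : ∀ (τ : ℝ) (J : ℕ) (F : Fam m J) (A : F.Ω → Prop), S.St τ J F A → 0 < Pe F.p A)
    (y : Fin m) (s : ℝ) :
    ∃ S' : PCl m, S'.Ne ∧
      (∀ (τ : ℝ) (J : ℕ) (F : Fam m J) (A : F.Ω → Prop), S'.St τ J F A → S.St τ J F A) ∧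
      ∃ θ : ℕ → ℚ → ℝ, ∀ k (w : ℚ), NN S' (fun J F => ptr F J)
        (vg ((w : ℝ) + s)) (fun J F => F.W) (qDr m y (fun J => ⌊(1 / 2 : ℝ) ^ k * J⌋₊)) (θ k w) := by
  classical
  have few : ∀ (k : ℕ) (w w' : ℚ), Few S (fun J F => ptr F J) (vg ((w : ℝ) + s)) (fun J F => F.W)
      (qDr m y (fun J => ⌊(1 / 2 : ℝ) ^ k * J⌋₊)) (qDr m y (fun J => ⌊(1 / 2 : ℝ) ^ k * J⌋₊)) := by
    intro k w w' h hh
    refine ⟨1, one_pos, fun K => ?_⟩
    refine Bas.mono 0 (pos_bas hpos) ?_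
    rintro J - F A' hA u u' hu hu'
    have hu2 : u = fun ω => F.D ⌊(1 / 2 : ℝ) ^ k * J⌋₊ ω y := hu
    have hu3 : u' = fun ω => F.D ⌊(1 / 2 : ℝ) ^ k * J⌋₊ ω y := hu'
    have hl := isLaw_cond F.isLaw hA
    refine ⟨Unit, fun _ => (), ⟨⟨fun _ => (), fun _ _ => rfl⟩, fun _ => (), fun _ _ => rfl⟩, ?_⟩
    have h0 : CH (Pool.Agent.H49.Ent.cond F.p A' True) u'
        (fun ω => (u ω, (((), F.W ω) : Unit × _))) = 0 := by
      refine CH_eq_zero hl.nonneg fun ω ω' _ _ hh => ?_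
      have := (Prod.ext_iff.mp hh).1
      rw [hu3]
      rw [hu2] at this
      exact this
    rw [h0]
    positivity
  have exs : ∀ (k : ℕ), Exs S (qDr m y (fun J => ⌊(1 / 2 : ℝ) ^ k * J⌋₊)) := by
    intro k e he
    refine ⟨0, 4, 1, one_pos, 1, fun J hJ F A' _ => ⟨_, rfl, ?_⟩⟩
    refine (cnt_dir F y _ A').trans ?_
    have hJ1 : (1 : ℝ) ≤ J := by exact_mod_cast hJ
    have hn : ⌊(1 / 2 : ℝ) ^ k * (J : ℝ)⌋₊ ≤ J := by
      have h1 : (1 / 2 : ℝ) ^ k * J ≤ J := by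
        have : (1 / 2 : ℝ) ^ k ≤ 1 := pow_le_one₀ (by norm_num) (by norm_num)
        nlinarith
      have h2 := Nat.floor_le_floor h1
      rwa [Nat.floor_natCast] at h2
    have e1 : (2 : ℝ) ^ ⌊(1 / 2 : ℝ) ^ k * (J : ℝ)⌋₊ ≤ Real.exp J := by
      have h3 : (2 : ℝ) ≤ Real.exp 1 := by
        have := Real.add_one_le_exp (1 : ℝ)
        linarith
      calc (2 : ℝ) ^ ⌊(1 / 2 : ℝ) ^ k * (J : ℝ)⌋₊ ≤ 2 ^ J := pow_le_pow_right₀ (by norm_num) hn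
        _ ≤ Real.exp 1 ^ J := pow_le_pow_left₀ (by norm_num) h3 J
        _ = Real.exp J := by rw [← Real.exp_nat_mul, mul_one]
    have e2 : (5 : ℝ) ≤ Real.exp (3 * J) := by
      have h3 := Real.add_one_le_exp (3 * (J : ℝ))
      have h4 : Real.exp (3 : ℝ) ≤ Real.exp (3 * J) := Real.exp_le_exp.2 (by linarith)
      have h5 : (5 : ℝ) ≤ Real.exp 3 := by
        have h6 : (2.7 : ℝ) ≤ Real.exp 1 := by
          have := Real.exp_one_gt_d9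
          linarith
        have h7 : Real.exp 3 = Real.exp 1 * Real.exp 1 * Real.exp 1 := by
          rw [← Real.exp_add, ← Real.exp_add]
          norm_num
        rw [h7]
        nlinarith [mul_le_mul h6 h6 (by norm_num) (by linarith)]
      linarith
    have e3 : Real.exp (4 * (J : ℝ)) = Real.exp (3 * J) * Real.exp J := by
      rw [← Real.exp_add]
      congr 1
      ring
    rw [e3]
    exact mul_le_mul e2 e1 (by positivity) (Real.exp_pos _).le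
  obtain ⟨S', h1, h2, h3⟩ := nn_ext_ct hS hpos (ι := ℕ × ℚ) (fun _ => ℤ)
    (fun _ _ F => PtT F) (fun _ _ F => LnT F) (fun _ _ F => ℕ × F.ζ) (fun _ J F => ptr F J)
    (fun i => vg ((i.2 : ℝ) + s)) (fun _ J F => F.W)
    (fun i => qDr m y (fun J => ⌊(1 / 2 : ℝ) ^ i.1 * J⌋₊)) (fun i => exs i.1)
    (fun i => few i.1 i.2 i.2)
  choose θ hθ using h3
  exact ⟨S', h1, h2, fun k w => θ (k, w), fun k w => hθ (k, w)⟩

/-- **The first digits of the direction are free** (given the time and the code only). -/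
theorem fix_dirW {S : PCl m} (hS : S.Ne)
    (hpos : ∀ (τ : ℝ) (J : ℕ) (F : Fam m J) (A : F.Ω → Prop), S.St τ J F A → 0 < Pe F.p A)
    (y : Fin m) {s A B : ℝ} {η : ℚ → ℝ}
    (hη : ∀ w : ℚ, A ≤ w → (w : ℝ) ≤ B → RNum S (fun J F => ptr F J) (vg ((w : ℝ) + s)) (η w))
    {θ : ℕ → ℚ → ℝ} (hθ : ∀ k (w : ℚ), NN S (fun J F => ptr F J)
        (vg ((w : ℝ) + s)) (fun J F => F.W) (qDr m y (fun J => ⌊(1 / 2 : ℝ) ^ k * J⌋₊)) (θ k w)) :
    ∀ᵐ w₀ : ℝ, w₀ ∈ Set.Ioo A B → ∃ r₀ : ℝ, 0 < r₀ ∧ ∀ ε : ℝ, 0 < ε → ∃ k₀ : ℕ, ∀ k ≥ k₀,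
        ∀ r : ℝ, 0 < r → r < r₀ → ∀ w w' : ℚ, w₀ - r ≤ w → w ≤ w' → (w' : ℝ) ≤ w₀ + r →
          θ k w - θ k w' ≤ ε * r := by
  classical
  have few : ∀ (k : ℕ) (w w' : ℚ), Few S (fun J F => ptr F J) (vg ((w : ℝ) + s)) (fun J F => F.W)
      (qDr m y (fun J => ⌊(1 / 2 : ℝ) ^ k * J⌋₊)) (qDr m y (fun J => ⌊(1 / 2 : ℝ) ^ k * J⌋₊)) := by
    intro k w w' h hh
    refine ⟨1, one_pos, fun K => ?_⟩
    refine Bas.mono 0 (pos_bas hpos) ?_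
    rintro J - F A' hA u u' hu hu'
    have hu2 : u = fun ω => F.D ⌊(1 / 2 : ℝ) ^ k * J⌋₊ ω y := hu
    have hu3 : u' = fun ω => F.D ⌊(1 / 2 : ℝ) ^ k * J⌋₊ ω y := hu'
    have hl := isLaw_cond F.isLaw hA
    refine ⟨Unit, fun _ => (), ⟨⟨fun _ => (), fun _ _ => rfl⟩, fun _ => (), fun _ _ => rfl⟩, ?_⟩
    have h0 : CH (Pool.Agent.H49.Ent.cond F.p A' True) u'
        (fun ω => (u ω, (((), F.W ω) : Unit × _))) = 0 := by
      refine CH_eq_zero hl.nonneg fun ω ω' _ _ hh => ?_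
      have := (Prod.ext_iff.mp hh).1
      rw [hu3]
      rw [hu2] at this
      exact this
    rw [h0]
    positivity
  exact free_fix (c := 2) hS hpos (fun _ J F => ptr F J) (fun w => vg ((w : ℝ) + s)) (fun _ _ J F => F.W)
    (fun w w' _ J F => ⟨id, fun _ => rfl⟩)
    (fun w w' h J F => vg_mono' (by
      have : (w : ℝ) ≤ w' := by exact_mod_cast h
      linarith) J F)
    (fun k w w' _ J F => ⟨id, fun _ => rfl⟩) (by norm_num)
    hη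
    (fun k _ => qDr m y (fun J => ⌊(1 / 2 : ℝ) ^ k * J⌋₊)) (by
      intro k w _ _ e he
      obtain ⟨J₁, hJ₁⟩ := exists_nat_ge (2 / (1 / 2 : ℝ) ^ k)
      refine ⟨0, 1, one_pos, J₁, fun J hJ F A' _ => ⟨_, rfl, ?_⟩⟩
      refine (cnt_dir F y _ A').trans ?_
      have hJr : (J₁ : ℝ) ≤ J := by exact_mod_cast hJ
      have pk : (0 : ℝ) < (1 / 2 : ℝ) ^ k := by positivity
      have l1 := hJ₁.trans hJr
      rw [div_le_iff₀ pk] at l1
      obtain ⟨l, hl⟩ : ∃ l : ℝ, l = (1 / 2 : ℝ) ^ k * J := ⟨_, rfl⟩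
      have hl2 : 2 ≤ l := by rw [hl]; linarith
      show 5 * (2 : ℝ) ^ ⌊(1 / 2 : ℝ) ^ k * (J : ℝ)⌋₊ ≤ _
      rw [← hl]
      have n1 : (⌊l⌋₊ : ℝ) ≤ l := Nat.floor_le (by linarith)
      have e1 : (2 : ℝ) ^ ⌊l⌋₊ ≤ Real.exp l := by
        have h3 : (2 : ℝ) ≤ Real.exp 1 := by
          have := Real.add_one_le_exp (1 : ℝ)
          linarith
        calc (2 : ℝ) ^ ⌊l⌋₊ ≤ Real.exp 1 ^ ⌊l⌋₊ := pow_le_pow_left₀ (by norm_num) h3 _
          _ = Real.exp ⌊l⌋₊ := by rw [← Real.exp_nat_mul, mul_one]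
          _ ≤ Real.exp l := Real.exp_le_exp.2 n1
      have e2 : (5 : ℝ) ≤ Real.exp l := by
        have h4 : Real.exp (2 : ℝ) ≤ Real.exp l := Real.exp_le_exp.2 hl2
        have h5 : (5 : ℝ) ≤ Real.exp 2 := by
          have h6 : (2.7 : ℝ) ≤ Real.exp 1 := by
            have := Real.exp_one_gt_d9
            linarith
          have h7 : Real.exp 2 = Real.exp 1 * Real.exp 1 := by
            rw [← Real.exp_add]
            norm_num
          rw [h7]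
          nlinarith [mul_le_mul h6 h6 (by norm_num) (by linarith)]
        linarith
      have e3 : Real.exp (2 * (1 / 2 : ℝ) ^ k * (J : ℝ)) = Real.exp l * Real.exp l := by
        rw [← Real.exp_add, hl]
        congr 1
        ring
      rw [e3]
      exact mul_le_mul e2 e1 (by positivity) (Real.exp_pos _).le)
    (fun k w w' _ _ _ => few k w' w') (fun k w _ _ => hθ k w)

/-- Two numbers of the first digits give freeness. -/
theorem frd_of {S : PCl m} {y : Fin m} {P : ℝ} {w l θ θ' κ : ℝ}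
    (h1 : NN S (fun J F => ptr F J) (vg w) (fun J F => F.W) (qDr m y (fun J => ⌊P * J⌋₊)) θ)
    (h2 : NN S (fun J F => ptr F J) (vg l) (fun J F => F.W) (qDr m y (fun J => ⌊P * J⌋₊)) θ')
    (h : θ - θ' < κ) : Pool.MM97.FrD S y P w l κ := by
  obtain ⟨c, hc⟩ : ∃ c : ℝ, c = (κ - (θ - θ')) / 2 := ⟨_, rfl⟩
  have hc0 : 0 < c := by rw [hc]; linarith
  obtain ⟨k₁, hk₁, e₁, he₁, H1⟩ := h1 c hc0
  obtain ⟨k₂, hk₂, e₂, he₂, H2⟩ := h2 c hc0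
  refine ⟨min k₁ k₂, lt_min hk₁ hk₂, ?_⟩
  refine Bas.mono 0 ((H1 0).and (H2 0)) ?_
  rintro J - F A ⟨a1, a2⟩ V z V' z' hz hz'
  have b1 := (abs_le.1 (a1 V z (hz.le (min_le_left _ _)) _ rfl)).2
  have b2 := (abs_le.1 (a2 V' z' (hz'.le (min_le_right _ _)) _ rfl)).1
  have e : κ * J = (θ - θ') * J + 2 * (c * J) := by rw [hc]; ring
  rw [e]
  linarith

/-- **FREE at a small rate.** -/
theorem fre_ae {S : PCl m} (hS : S.Ne)
    (hpos : ∀ (τ : ℝ) (J : ℕ) (F : Fam m J) (A : F.Ω → Prop), S.St τ J F A → 0 < Pe F.p A)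
    {y : Fin m} {s A B : ℝ}
    (hη : ∀ w : ℚ, A < w → (w : ℝ) < B → ∃ η, RNum S (fun J F => ptr F J) (vg ((w : ℝ) + s)) η) :
    ∃ S' : PCl m, S'.Ne ∧
      (∀ (τ : ℝ) (J : ℕ) (F : Fam m J) (A : F.Ω → Prop), S'.St τ J F A → S.St τ J F A) ∧
      ∀ᵐ g : ℝ, g ∈ Set.Ioo A B → ∀ e : ℝ, 0 < e → ∃ P : ℚ, 0 < P ∧ ∃ r₀ : ℝ, 0 < r₀ ∧
        ∀ r : ℝ, 0 < r → r < r₀ → ∀ w l : ℚ, g - r ≤ w → w ≤ l → (l : ℝ) ≤ g + r →
          Pool.MM97.FrD S' y (P : ℝ) ((w : ℝ) + s) ((l : ℝ) + s) (e * r) := by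
  obtain ⟨S', h1, h2, θ, hθ⟩ := num_dirW hS hpos y s
  refine ⟨S', h1, h2, ?_⟩
  have hpos' : ∀ (τ : ℝ) (J : ℕ) (F : Fam m J) (A : F.Ω → Prop), S'.St τ J F A → 0 < Pe F.p A :=
    fun τ J F A h => hpos τ J F A (h2 τ J F A h)
  have key : ∀ a b : ℚ, A < a → (b : ℝ) < B → ∀ᵐ w₀ : ℝ, w₀ ∈ Set.Ioo (a : ℝ) b →
      ∃ r₀ : ℝ, 0 < r₀ ∧ ∀ ε : ℝ, 0 < ε → ∃ k₀ : ℕ, ∀ k ≥ k₀,
        ∀ r : ℝ, 0 < r → r < r₀ → ∀ w w' : ℚ, w₀ - r ≤ w → w ≤ w' → (w' : ℝ) ≤ w₀ + r →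
          θ k w - θ k w' ≤ ε * r := by
    intro a b ha hb
    have hη' : ∀ w : ℚ, ∃ η, (a : ℝ) ≤ w → (w : ℝ) ≤ b →
        RNum S' (fun J F => ptr F J) (vg ((w : ℝ) + s)) η := by
      intro w
      by_cases hw : (a : ℝ) ≤ w ∧ (w : ℝ) ≤ b
      · obtain ⟨η, h⟩ := hη w (ha.trans_le hw.1) (hw.2.trans_lt hb)
        exact ⟨η, fun _ _ => h.sub h2⟩
      · exact ⟨0, fun c d => (hw ⟨c, d⟩).elim⟩
    choose η hη'' using hη'
    exact fix_dirW h1 hpos' y hη'' hθ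
  have key2 : ∀ᵐ w₀ : ℝ, ∀ a b : ℚ, A < a → (b : ℝ) < B → w₀ ∈ Set.Ioo (a : ℝ) b →
      ∃ r₀ : ℝ, 0 < r₀ ∧ ∀ ε : ℝ, 0 < ε → ∃ k₀ : ℕ, ∀ k ≥ k₀,
        ∀ r : ℝ, 0 < r → r < r₀ → ∀ w w' : ℚ, w₀ - r ≤ w → w ≤ w' → (w' : ℝ) ≤ w₀ + r →
          θ k w - θ k w' ≤ ε * r := by
    rw [ae_all_iff]
    intro a
    rw [ae_all_iff]
    intro b
    by_cases ha : A < (a : ℝ)
    · by_cases hb : (b : ℝ) < B
      · filter_upwards [key a b ha hb] with w₀ hw _ _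
        exact hw
      · exact Filter.Eventually.of_forall fun _ _ h => (hb h).elim
    · exact Filter.Eventually.of_forall fun _ h => (ha h).elim
  filter_upwards [key2] with g hg hgAB e he
  obtain ⟨a, ha1, ha2⟩ := exists_rat_btwn hgAB.1
  obtain ⟨b, hb1, hb2⟩ := exists_rat_btwn hgAB.2
  obtain ⟨r₀, hr₀, H⟩ := hg a b ha1 hb2 ⟨ha2, hb1⟩
  obtain ⟨k, hk⟩ := H (e / 2) (half_pos he)
  refine ⟨(1 / 2 : ℚ) ^ k, by positivity, r₀, hr₀, fun r hr hr' w l hw hwl hl => ?_⟩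
  have e1 : (((1 / 2 : ℚ) ^ k : ℚ) : ℝ) = (1 / 2 : ℝ) ^ k := by push_cast; rfl
  rw [e1]
  refine frd_of (hθ k w) (hθ k l) ?_
  have h3 := hk k le_rfl r hr hr' w l hw hwl hl
  have h4 : 0 < e * r := mul_pos he hr
  nlinarith

end Pool.ONE62
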