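import Pool.Agent.H72.ONE1.Lbd
import Pool.Agent.H72.OWN.Spr
import Pool.Agent.H91.ONE.Lad0

/-!
# The labels of the three coordinates at three windows, in a class

`spr_all`: finitely many relations over the active velocity. `lbl_cls`: the labels of the
coordinates `u`, `v - f u`, `t - κu u - κv v` over the active velocity at three windows, with their
sizes and with the natural differences.
-/

set_option autoImplicit false

namespace Pool.ONE62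

open Finset Real
open Pool.Agent.H49.Ent Pool.Agent.H32.Dense Pool.STK Pool.KA Pool.KSAT Pool.K2S Pool.PB Pool.GEN
open Pool.S6C Pool.LA91 Pool.RCD Pool.OWN72 Pool.ONE72

variable {m J : ℕ}

/-- **Finitely many relations** over the active velocity. -/
theorem spr_all {S : PCl m} {C₀ : ℝ} (htm : TmC S C₀) {y : Fin m} (hact : Pool.MIC6.ActF S y)
    {s h : ℝ} (hs : 0 < s) (hh : 0 < h) {ι : Type} [Fintype ι] :
    Bas S (fun J F A => ∀ (δ δc : ι → PtT F → ℝ) (η : ι → ℝ), (∀ k, 0 < η k) →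
      (∀ k ω, A ω → |δc k (ptr F J ω) + δ k (ptr F J ω) * F.d ω y| ≤ η k) →
      ∃ B : F.Ω → Prop, Sub B A ∧ (1 - h) * Pe F.p A ≤ Pe F.p B ∧
        ∀ k ω, B ω → |δ k (ptr F J ω)| ≤ 2 ^ ⌊s * J⌋₊ * η k) := by
  classical
  obtain ⟨n, hn⟩ : ∃ n, n = Fintype.card ι := ⟨_, rfl⟩
  have hn1 : (0 : ℝ) < n + 1 := by positivity
  have h1 := spr_cls htm hact hs (η := h / (n + 1)) (by positivity)
  refine Bas.mono 0 h1 ?_
  rintro J - F A hb δ δc η hη hrel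
  obtain ⟨en⟩ : Nonempty (ι ≃ Fin n) := ⟨(Fintype.equivFin ι).trans (finCongr hn.symm)⟩
  have h2 : ∀ k : ι, ∃ B : F.Ω → Prop, Sub B A ∧ (1 - h / (n + 1)) * Pe F.p A ≤ Pe F.p B ∧
      ∀ ω, B ω → |δ k (ptr F J ω)| ≤ 2 ^ ⌊s * J⌋₊ * η k := fun k =>
    hb (δc k) (δ k) (η k) (hη k) (hrel k)
  choose B b1 b2 b3 using h2
  have h3 : (1 - n * (h / (n + 1))) * Pe F.p A ≤ Pe F.p (fun ω => A ω ∧ ∀ i < n,
      (fun (i : ℕ) (ω : F.Ω) => if h : i < n then B (en.symm ⟨i, h⟩) ω else A ω) i ω) := by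
    refine Pool.ONE91.pe_all F.isLaw n fun i hi => ?_
    simp only [dif_pos hi]
    exact ⟨b1 _, b2 _⟩
  refine ⟨_, fun ω hω => hω.1, le_trans ?_ h3, ?_⟩
  · refine mul_le_mul_of_nonneg_right ?_ (Pe_nonneg F.isLaw A)
    have h4 : n * (h / (n + 1)) ≤ h := by
      rw [mul_div_assoc', div_le_iff₀ hn1]
      nlinarith
    linarith
  · intro k ω hω
    refine b3 k ω ?_
    have h5 := hω.2 (en k) (en k).2
    simp only [dif_pos (en k).2] at h5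
    have h6 : en.symm ⟨(en k : ℕ), (en k).2⟩ = k := by simp
    rwa [h6] at h5

/-- The velocities of the three coordinates are bounded. -/
theorem g3v_le (F : Fam m J) {A : F.Ω → Prop} {u v t : Fin m} {f κu κv : PtT F → ℝ} {x E : ℕ}
    (hf : ∀ ω, A ω → |f (ptr F J ω)| ≤ 2 ^ x) (hu : ∀ ω, A ω → |κu (ptr F J ω)| ≤ 2 ^ E)
    (hv : ∀ ω, A ω → |κv (ptr F J ω)| ≤ 2 ^ E) (j : Fin 3) (ω : F.Ω) (hω : A ω) :
    |g3v F u v t f κu κv j ω| ≤ 3 * 2 ^ (if j = 0 then 0 else if j = 1 then x else E) := by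
  have h1 : (1 : ℝ) ≤ 2 ^ x := one_le_pow₀ (by norm_num)
  have h2 : (1 : ℝ) ≤ 2 ^ E := one_le_pow₀ (by norm_num)
  have d1 := F.dir ω u
  have d2 := F.dir ω v
  have d3 := F.dir ω t
  have m1 : ∀ (a b : ℝ) (n : ℕ), |a| ≤ 2 ^ n → |b| ≤ 1 → |a * b| ≤ 2 ^ n := by
    intro a b n ha hb
    rw [abs_mul]
    exact (mul_le_of_le_one_right (abs_nonneg _) hb).trans ha
  fin_cases j
  · show |F.d ω u| ≤ 3 * 2 ^ 0
    rw [pow_zero]
    linarith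
  · show |F.d ω v - f (ptr F J ω) * F.d ω u| ≤ 3 * 2 ^ x
    have h3 := m1 _ _ _ (hf ω hω) d1
    refine (abs_sub _ _).trans ?_
    linarith
  · show |F.d ω t - κu (ptr F J ω) * F.d ω u - κv (ptr F J ω) * F.d ω v| ≤ 3 * 2 ^ E
    have h3 := m1 _ _ _ (hu ω hω) d1
    have h4 := m1 _ _ _ (hv ω hω) d2
    refine (abs_sub _ _).trans ?_
    have h5 := abs_sub (F.d ω t) (κu (ptr F J ω) * F.d ω u)
    linarith

/-- A precision against a power. -/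
theorem prec_mul {r : ℝ} {L M : ℕ} (h : |r| ≤ 1 / 2 ^ M) (hL : L ≤ M) : |r| * 2 ^ L ≤ 1 := by
  have h1 : (0 : ℝ) < 2 ^ M := by positivity
  rw [le_div_iff₀ h1] at h
  refine le_trans ?_ h
  exact mul_le_mul_of_nonneg_left (pow_le_pow_right₀ (by norm_num) hL) (abs_nonneg _)

/-- **The labels of the three coordinates at three windows, in a class.** -/
theorem lbl_cls {S : PCl m} {C₀ : ℝ} (htm : TmC S C₀) {y u v t : Fin m}
    (hact : Pool.MIC6.ActF S y) {κ : ∀ (J : ℕ) (F : Fam m J), PtT F → Fin m → ℝ}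
    {A₀ B₀ E : ℝ} (hE : 0 ≤ E)
    (hκ : Bas S (fun J F A => (∀ k ∈ ({u, v} : Finset (Fin m)),
      Cl1 F A ⌊A₀ * J⌋₊ (fun p => κ J F p k)) ∧
      ∀ ω, A ω → ∀ k ∈ ({u, v} : Finset (Fin m)), |κ J F (ptr F J ω) k| ≤ 2 ^ ⌊E * J⌋₊))
    {N : ℚ → ℝ}
    (hN : MNum S y (fun J F ω => F.d ω t - κ J F (ptr F J ω) u * F.d ω u -
      κ J F (ptr F J ω) v * F.d ω v) A₀ B₀ N)
    {w : Fin 3 → ℚ} (hw0 : A₀ < w 0) (hw1 : w 0 ≤ w 1) (hw2 : w 1 ≤ w 2) (hw3 : (w 2 : ℝ) < B₀)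
    (hB₀ : B₀ ≤ 1) (hN0 : 0 < N (w 0))
    {a : Fin 3 → ℝ} (ha : ∀ i, a i ≤ w i)
    {Nu Nv : Fin 3 → ℝ} (hNu : ∀ i, Nu 0 ≤ Nu i) (hNv : ∀ i, Nv 0 ≤ Nv i)
    (hu : ∀ i, HasA S {y} u (a i) (Nu i + a i)) (hv : HasA S {y, u} v (a 0) (Nv 0 + a 0))
    (hvl : ∀ i, ∀ e h : ℝ, 0 < e → 0 < h → ∃ e₀ > 0, Bas S (fun J F A =>
      ∀ (n : ℕ) (a' : PtT F → Fin m → ℝ) (c' : PtT F → ℝ),
        ClA F A {y, u} v ⌊a 0 * J⌋₊ n ⌊(Nv 0 - e₀) * J⌋₊ a' c' →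
        ∃ B : F.Ω → Prop, Sub B A ∧ (1 - h) * Pe F.p A ≤ Pe F.p B ∧ ∃ γ γc : PtT F → ℝ,
          MLb F B y (fun ω => F.d ω v - a' (ptr F J ω) u * F.d ω u) ⌊a i * J⌋₊
            ⌊(Nv i - e) * J⌋₊ γ γc))
    {e s h : ℝ} (he : 0 < e) (hs : 0 < s) (hh : 0 < h) :
    Bas S (fun J F A => ∃ B : F.Ω → Prop, Sub B A ∧ (1 - h) * Pe F.p A ≤ Pe F.p B ∧
      ∃ (f : PtT F → ℝ) (γ γc : Fin 3 → Fin 3 → PtT F → ℝ),
        LbD F B y u v t f (fun p => κ J F p u) (fun p => κ J F p v) γ γc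
          (fun i => ⌊(w i : ℝ) * J⌋₊)
          (fun i j => if j = 0 then ⌊(Nu i - e) * J⌋₊ else if j = 1 then ⌊(Nv i - e) * J⌋₊
            else ⌊(N (w i) - e) * J⌋₊)
          (fun j => if j = 2 then ⌊(E + s) * J⌋₊ else ⌊s * J⌋₊) ⌊s * J⌋₊) := by
  classical
  -- the parameters
  obtain ⟨h', hh'⟩ : ∃ h', h' = min (h / 4) (1 / 6) := ⟨_, rfl⟩
  have hh'0 : 0 < h' := by rw [hh']; exact lt_min (by linarith) (by norm_num)
  have hh'1 : h' ≤ h / 4 := by rw [hh']; exact min_le_left _ _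
  have hh'2 : h' ≤ 1 / 6 := by rw [hh']; exact min_le_right _ _
  choose e₀ he₀ hvb using fun i => hvl i e h' he hh'0
  obtain ⟨x, hx⟩ : ∃ x, x = min (min (s / 4) e) (min (e₀ 0) (min (e₀ 1) (e₀ 2))) := ⟨_, rfl⟩
  have hx0 : 0 < x := by
    rw [hx]
    exact lt_min (lt_min (by linarith) he) (lt_min (he₀ 0) (lt_min (he₀ 1) (he₀ 2)))
  have hxs : x ≤ s / 4 := by rw [hx]; exact (min_le_left _ _).trans (min_le_left _ _)
  have hxe : x ≤ e := by rw [hx]; exact (min_le_left _ _).trans (min_le_right _ _)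
  have hx2 : ∀ i, x ≤ e₀ i := by
    have h1 : x ≤ min (e₀ 0) (min (e₀ 1) (e₀ 2)) := by rw [hx]; exact min_le_right _ _
    intro i
    fin_cases i
    · exact h1.trans (min_le_left _ _)
    · exact h1.trans ((min_le_right _ _).trans (min_le_left _ _))
    · exact h1.trans ((min_le_right _ _).trans (min_le_right _ _))
  have hw01 : ∀ i, w 0 ≤ w i := by
    intro i
    fin_cases i
    · exact le_refl _
    · exact hw1
    · exact hw1.trans hw2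
  have hw02 : ∀ i, w i ≤ w 2 := by
    intro i
    fin_cases i
    · exact hw1.trans hw2
    · exact hw2
    · exact le_refl _
  have hwA : ∀ i, A₀ < (w i : ℝ) := fun i => hw0.trans_le (by exact_mod_cast hw01 i)
  have hwB : ∀ i, (w i : ℝ) < B₀ := fun i => lt_of_le_of_lt (by exact_mod_cast hw02 i) hw3
  have hNm : ∀ i, N (w 0) ≤ N (w i) := fun i => hN.mono _ _ hw0 (hw01 i) (hwB i)
  obtain ⟨e', he'⟩ : ∃ e', e' = min e (N (w 0) / 2) := ⟨_, rfl⟩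
  have he'0 : 0 < e' := by rw [he']; exact lt_min he (by linarith)
  have he'1 : e' ≤ e := by rw [he']; exact min_le_left _ _
  have he'2 : ∀ i, e' < N (w i) := by
    intro i
    have h1 : e' ≤ N (w 0) / 2 := by rw [he']; exact min_le_right _ _
    linarith [hNm i]
  obtain ⟨J₂, hJ₂⟩ := exists_nat_ge ((8 : ℝ) / s)
  -- the labels
  have b1 := Bas.all 3 (Φ := fun i J F A => ∀ h : i < 3, ∃ (α : PtT F → Fin m → ℝ)
      (αc : PtT F → ℝ), ClA F A {y} u ⌊a ⟨i, h⟩ * J⌋₊ ⌊x * J⌋₊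
        ⌊(Nu ⟨i, h⟩ + a ⟨i, h⟩ - a ⟨i, h⟩ - x) * J⌋₊ α αc) fun i hi =>
    Bas.mono 0 (hu ⟨i, hi⟩ x hx0) (by rintro J - F A h1 _; exact h1)
  have b2 := hv x hx0
  have b3 := Bas.all 3 (Φ := fun i J F A => ∀ h : i < 3, ∀ (n : ℕ) (a' : PtT F → Fin m → ℝ)
      (c' : PtT F → ℝ),
        ClA F A {y, u} v ⌊a 0 * J⌋₊ n ⌊(Nv 0 - e₀ ⟨i, h⟩) * J⌋₊ a' c' →
        ∃ B : F.Ω → Prop, Sub B A ∧ (1 - h') * Pe F.p A ≤ Pe F.p B ∧ ∃ γ γc : PtT F → ℝ,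
          MLb F B y (fun ω => F.d ω v - a' (ptr F J ω) u * F.d ω u) ⌊a ⟨i, h⟩ * J⌋₊
            ⌊(Nv ⟨i, h⟩ - e) * J⌋₊ γ γc) fun i hi =>
    Bas.mono 0 (hvb ⟨i, hi⟩) (by rintro J - F A h1 _; exact h1)
  have b4 := Bas.all 3 (Φ := fun i J F A => ∀ h : i < 3, ∃ γ γc : PtT F → ℝ,
      MLb F A y (fun ω => F.d ω t - κ J F (ptr F J ω) u * F.d ω u -
        κ J F (ptr F J ω) v * F.d ω v) ⌊(w ⟨i, h⟩ : ℝ) * J⌋₊ ⌊(N (w ⟨i, h⟩) - e') * J⌋₊ γ γc)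
    fun i hi => Bas.mono 0 (hN.att (w ⟨i, hi⟩) (hwA _) (hwB _) e' he'0 (he'2 _))
      (by rintro J - F A h1 _; exact h1)
  have b5 := Pool.LBK.Bas.ev (spr_all htm hact (s := s / 4) (h := h') (by linarith) hh'0
    (ι := Bool × Fin 3 × Fin 3)) (η' := 1 / 2) (by norm_num)
  refine Bas.mono J₂ (hκ.and (b1.and (b2.and (b3.and (b4.and b5))))) ?_
  rintro J hJ F A ⟨⟨k1, k2⟩, c1, ⟨a', c', c2⟩, c3, c4, c5⟩
  have hsJ : 8 ≤ s * J := by
    have h1 : (J₂ : ℝ) ≤ J := by exact_mod_cast hJ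
    have h2 := hJ₂.trans h1
    rw [div_le_iff₀ hs] at h2
    linarith
  have hJ0 : (0 : ℝ) ≤ J := Nat.cast_nonneg J
  have flm : ∀ {p q : ℝ}, p ≤ q → ⌊p * (J : ℝ)⌋₊ ≤ ⌊q * (J : ℝ)⌋₊ := fun h =>
    Nat.floor_le_floor (mul_le_mul_of_nonneg_right h hJ0)
  -- `v` over `u`
  have c3' : ∀ i : Fin 3, ∃ B : F.Ω → Prop, Sub B A ∧ (1 - h') * Pe F.p A ≤ Pe F.p B ∧
      ∃ γ γc : PtT F → ℝ, MLb F B y (fun ω => F.d ω v - a' (ptr F J ω) u * F.d ω u)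
        ⌊a i * J⌋₊ ⌊(Nv i - e) * J⌋₊ γ γc := by
    intro i
    refine c3 i i.2 i.2 ⌊x * J⌋₊ a' c' ⟨fun ω hω => ?_, c2.ca, c2.cc⟩
    obtain ⟨d1, d2, d3⟩ := c2.dp ω hω
    refine ⟨d1, d2, d3.trans (one_div_le_one_div_of_le (by positivity)
      (pow_le_pow_right₀ (by norm_num) (flm ?_)))⟩
    have := hx2 i
    show Nv 0 - e₀ i ≤ _
    linarith
  choose Bv v1 v2 γv γvc v3 using c3'
  have c1' : ∀ i : Fin 3, ∃ (α : PtT F → Fin m → ℝ) (αc : PtT F → ℝ),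
      ClA F A {y} u ⌊a i * J⌋₊ ⌊x * J⌋₊ ⌊(Nu i + a i - a i - x) * J⌋₊ α αc :=
    fun i => c1 i i.2 i.2
  choose α αc u1 using c1'
  have c4' : ∀ i : Fin 3, ∃ γ γc : PtT F → ℝ,
      MLb F A y (fun ω => F.d ω t - κ J F (ptr F J ω) u * F.d ω u -
        κ J F (ptr F J ω) v * F.d ω v) ⌊(w i : ℝ) * J⌋₊ ⌊(N (w i) - e') * J⌋₊ γ γc :=
    fun i => c4 i i.2 i.2
  choose γt γtc t1 using c4'
  obtain ⟨f, hf⟩ : ∃ f : PtT F → ℝ, f = fun p => a' p u := ⟨_, rfl⟩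
  obtain ⟨A', hA'⟩ : ∃ A' : F.Ω → Prop, A' = fun ω => A ω ∧ ∀ i < 3,
      (fun (i : ℕ) (ω : F.Ω) => if h : i < 3 then Bv ⟨i, h⟩ ω else A ω) i ω := ⟨_, rfl⟩
  have hA'A : Sub A' A := by rw [hA']; exact fun ω hω => hω.1
  have hA'B : ∀ i, Sub A' (Bv i) := by
    rw [hA']
    intro i ω hω
    have h5 := hω.2 i i.2
    simp only [dif_pos i.2] at h5
    exact h5
  have hPA' : (1 - 3 * h') * Pe F.p A ≤ Pe F.p A' := by
    have h3 : (1 - (3 : ℕ) * h') * Pe F.p A ≤ Pe F.p A' := by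
      rw [hA']
      refine Pool.ONE91.pe_all F.isLaw 3 fun i hi => ?_
      simp only [dif_pos hi]
      exact ⟨v1 _, v2 _⟩
    exact_mod_cast h3
  have hPA := Pe_nonneg F.isLaw A
  have hPA2 : 1 / 2 * Pe F.p A ≤ Pe F.p A' :=
    (mul_le_mul_of_nonneg_right (by linarith) hPA).trans hPA'
  -- the joint labels
  obtain ⟨γ, hγ⟩ : ∃ γ : Fin 3 → Fin 3 → PtT F → ℝ, γ = fun i j =>
      if j = 0 then (fun p => α i p y) else if j = 1 then γv i else γt i := ⟨_, rfl⟩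
  obtain ⟨γc, hγc⟩ : ∃ γc : Fin 3 → Fin 3 → PtT F → ℝ, γc = fun i j =>
      if j = 0 then αc i else if j = 1 then γvc i else γtc i := ⟨_, rfl⟩
  obtain ⟨L, hL⟩ : ∃ L : Fin 3 → Fin 3 → ℕ, L = fun i j =>
      if j = 0 then ⌊(Nu i - e) * J⌋₊ else if j = 1 then ⌊(Nv i - e) * J⌋₊
            else ⌊(N (w i) - e) * J⌋₊ := ⟨_, rfl⟩
  have hLm : ∀ i j, L 0 j ≤ L i j := by
    intro i j
    rw [hL]
    fin_cases j
    · exact flm (by linarith [hNu i])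
    · exact flm (by linarith [hNv i])
    · exact flm (by linarith [hNm i])
  have hlab : ∀ i j, MLb F A' y (g3v F u v t f (fun p => κ J F p u) (fun p => κ J F p v) j)
      ⌊(w i : ℝ) * J⌋₊ (L i j) (γ i j) (γc i j) := by
    have hwJ : ∀ i, ⌊(w i : ℝ) * J⌋₊ ≤ J := by
      intro i
      refine Nat.floor_le_of_le ?_
      have := hwB i
      nlinarith
    intro i j
    rw [hL, hγ, hγc, hf]
    fin_cases j
    · show MLb F A' y (fun ω => F.d ω u) ⌊(w i : ℝ) * J⌋₊ ⌊(Nu i - e) * J⌋₊ (fun p => α i p y)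
        (αc i)
      have h1 : MLb F A y (fun ω => F.d ω u) ⌊a i * J⌋₊ ⌊(Nu i + a i - a i - x) * J⌋₊
          (fun p => α i p y) (αc i) := by
        refine ⟨(u1 i).ca y (by simp), (u1 i).cc, fun ω hω => ?_⟩
        have h2 := ((u1 i).dp ω hω).2.2
        rwa [Finset.sum_singleton] at h2
      exact ((h1.sub hA'A).anti (flm (by linarith))).win (flm (ha i)) (hwJ i)
    · show MLb F A' y (fun ω => F.d ω v - a' (ptr F J ω) u * F.d ω u) ⌊(w i : ℝ) * J⌋₊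
        ⌊(Nv i - e) * J⌋₊ (γv i) (γvc i)
      exact ((v3 i).sub (hA'B i)).win (flm (ha i)) (hwJ i)
    · show MLb F A' y (fun ω => F.d ω t - κ J F (ptr F J ω) u * F.d ω u -
        κ J F (ptr F J ω) v * F.d ω v) ⌊(w i : ℝ) * J⌋₊ ⌊(N (w i) - e) * J⌋₊ (γt i) (γtc i)
      exact ((t1 i).sub hA'A).anti (flm (by linarith))
  have hfA : ∀ ω, A ω → |f (ptr F J ω)| ≤ 2 ^ ⌊x * J⌋₊ := by
    intro ω hω
    rw [hf]
    exact (c2.dp ω hω).1 u (by simp)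
  have hgb := g3v_le F (u := u) (v := v) (t := t) (κu := fun p => κ J F p u)
    (κv := fun p => κ J F p v) hfA (fun ω hω => k2 ω hω u (by simp))
    (fun ω hω => k2 ω hω v (by simp))
  -- sizes
  obtain ⟨q, hq⟩ : ∃ q : Fin 3 → ℕ, q = fun j => if j = 0 then 0 else
      if j = 1 then ⌊x * (J : ℝ)⌋₊ else ⌊E * (J : ℝ)⌋₊ := ⟨_, rfl⟩
  obtain ⟨B, hB1, hB2, hB3⟩ := c5 A' hA'A hPA2
    (fun k => if k.1 then γ k.2.1 k.2.2 else fun p => γ k.2.1 k.2.2 p - γ 0 k.2.2 p)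
    (fun k => if k.1 then γc k.2.1 k.2.2 else fun p => γc k.2.1 k.2.2 p - γc 0 k.2.2 p)
    (fun k => if k.1 then 4 * 2 ^ q k.2.2 else 2 / 2 ^ L 0 k.2.2)
    (by
      rintro ⟨b, i, j⟩
      cases b
      · show (0 : ℝ) < 2 / 2 ^ L 0 j
        positivity
      · show (0 : ℝ) < 4 * 2 ^ q j
        positivity)
    (by
      rintro ⟨b, i, j⟩ ω hω
      have r1 := (hlab i j).rep ω hω
      have r0 := (hlab 0 j).rep ω hω
      unfold ov at r1 r0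
      have p0 : (0 : ℝ) < 2 ^ L 0 j := by positivity
      have p1 : 1 / (2 : ℝ) ^ L i j ≤ 1 / 2 ^ L 0 j :=
        one_div_le_one_div_of_le p0 (pow_le_pow_right₀ (by norm_num) (hLm i j))
      cases b
      · show |(γc i j (ptr F J ω) - γc 0 j (ptr F J ω)) +
          (γ i j (ptr F J ω) - γ 0 j (ptr F J ω)) * F.d ω y| ≤ 2 / 2 ^ L 0 j
        have e2 : (2 : ℝ) / 2 ^ L 0 j = 1 / 2 ^ L 0 j + 1 / 2 ^ L 0 j := by ring
        rw [e2]
        rw [abs_le] at r1 r0 ⊢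
        constructor <;> nlinarith
      · show |γc i j (ptr F J ω) + γ i j (ptr F J ω) * F.d ω y| ≤ 4 * 2 ^ q j
        have r2 := hgb j ω (hA'A ω hω)
        have r3 : (1 : ℝ) ≤ 2 ^ q j := one_le_pow₀ (by norm_num)
        have r4 : 1 / (2 : ℝ) ^ L i j ≤ 1 := by
          rw [div_le_one (by positivity)]
          exact one_le_pow₀ (by norm_num)
        have r5 : |g3v F u v t f (fun p => κ J F p u) (fun p => κ J F p v) j ω| ≤
            3 * 2 ^ q j := by rw [hq]; exact r2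
        rw [abs_le] at r1 r5 ⊢
        constructor <;> nlinarith)
  refine ⟨B, fun ω hω => hA'A ω (hB1 ω hω), ?_, f, γ, γc, ?_⟩
  · have h3 : (1 - h') * ((1 - 3 * h') * Pe F.p A) ≤ (1 - h') * Pe F.p A' :=
      mul_le_mul_of_nonneg_left hPA' (by linarith)
    have h4 : (1 - h) * Pe F.p A ≤ (1 - h') * ((1 - 3 * h') * Pe F.p A) := by
      rw [← mul_assoc]
      refine mul_le_mul_of_nonneg_right ?_ hPA
      nlinarith
    exact h4.trans (h3.trans hB2)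
  · have hBA : Sub B A := fun ω hω => hA'A ω (hB1 ω hω)
    have hwJ0 : ⌊(w 0 : ℝ) * J⌋₊ ≤ J := by
      refine Nat.floor_le_of_le ?_
      have := hwB 0
      nlinarith
    have g1 : ⌊x * (J : ℝ)⌋₊ ≤ ⌊s * (J : ℝ)⌋₊ := flm (by linarith)
    have f1 : (⌊s / 4 * (J : ℝ)⌋₊ : ℝ) ≤ s / 4 * J := Nat.floor_le (by positivity)
    have f2 : s * (J : ℝ) - 1 < ⌊s * (J : ℝ)⌋₊ := Nat.sub_one_lt_floor _
    have f3 : (⌊x * (J : ℝ)⌋₊ : ℝ) ≤ x * J := Nat.floor_le (by positivity)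
    have f4 : x * (J : ℝ) ≤ s / 4 * J := mul_le_mul_of_nonneg_right hxs hJ0
    have f5 : (⌊E * (J : ℝ)⌋₊ : ℝ) ≤ E * J := Nat.floor_le (by positivity)
    have f6 : (E + s) * (J : ℝ) - 1 < ⌊(E + s) * (J : ℝ)⌋₊ := Nat.sub_one_lt_floor _
    have n1 : ⌊s / 4 * (J : ℝ)⌋₊ + 1 ≤ ⌊s * (J : ℝ)⌋₊ := by
      rw [← Nat.cast_le (α := ℝ)]
      push_cast
      linarith
    have n2 : ∀ j, ⌊s / 4 * (J : ℝ)⌋₊ + (2 + q j) ≤
        (fun j : Fin 3 => if j = 2 then ⌊(E + s) * (J : ℝ)⌋₊ else ⌊s * (J : ℝ)⌋₊) j := by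
      intro j
      rw [hq]
      fin_cases j
      · show ⌊s / 4 * (J : ℝ)⌋₊ + (2 + 0) ≤ ⌊s * (J : ℝ)⌋₊
        rw [← Nat.cast_le (α := ℝ)]
        push_cast
        linarith
      · show ⌊s / 4 * (J : ℝ)⌋₊ + (2 + ⌊x * (J : ℝ)⌋₊) ≤ ⌊s * (J : ℝ)⌋₊
        rw [← Nat.cast_le (α := ℝ)]
        push_cast
        linarith
      · show ⌊s / 4 * (J : ℝ)⌋₊ + (2 + ⌊E * (J : ℝ)⌋₊) ≤ ⌊(E + s) * (J : ℝ)⌋₊
        rw [← Nat.cast_le (α := ℝ)]
        push_cast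
        linarith
    refine ⟨?_, ?_, ?_, ?_, ?_, ?_, fun i j => ((hlab i j).ca).sub hB1,
      fun i j => ((hlab i j).cc).sub hB1, ?_, ?_, ?_⟩
    · rw [hf]
      exact ((c2.ca u (by simp)).sub hBA).win (flm (ha 0)) hwJ0
    · exact ((k1 u (by simp)).sub hBA).win (flm hw0.le) hwJ0
    · exact ((k1 v (by simp)).sub hBA).win (flm hw0.le) hwJ0
    · intro ω hω
      exact (hfA ω (hBA ω hω)).trans (pow_le_pow_right₀ (by norm_num) g1)
    · intro ω hω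
      exact (k2 ω (hBA ω hω) u (by simp)).trans (pow_le_pow_right₀ (by norm_num)
        (flm (by linarith)))
    · intro ω hω
      exact (k2 ω (hBA ω hω) v (by simp)).trans (pow_le_pow_right₀ (by norm_num)
        (flm (by linarith)))
    · intro i j ω hω
      have h1 := prec_mul ((hlab i j).rep ω (hB1 ω hω)) (le_refl _)
      rw [hL] at h1
      exact h1
    · intro i j ω hω
      have h1 : |γ i j (ptr F J ω)| ≤ 2 ^ ⌊s / 4 * (J : ℝ)⌋₊ * (4 * 2 ^ q j) :=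
        hB3 (true, i, j) ω hω
      refine h1.trans ?_
      have h2 : (2 : ℝ) ^ ⌊s / 4 * (J : ℝ)⌋₊ * (4 * 2 ^ q j) =
          2 ^ (⌊s / 4 * (J : ℝ)⌋₊ + (2 + q j)) := by
        rw [pow_add, pow_add]
        norm_num
      rw [h2]
      exact pow_le_pow_right₀ (by norm_num) (n2 j)
    · intro i j ω hω
      have h1 : |γ i j (ptr F J ω) - γ 0 j (ptr F J ω)| ≤
          2 ^ ⌊s / 4 * (J : ℝ)⌋₊ * (2 / 2 ^ L 0 j) := hB3 (false, i, j) ω hω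
      have h2 : |γ i j (ptr F J ω) - γ 0 j (ptr F J ω)| * 2 ^ L 0 j ≤
          2 ^ ⌊s / 4 * (J : ℝ)⌋₊ * (2 / 2 ^ L 0 j) * 2 ^ L 0 j :=
        mul_le_mul_of_nonneg_right h1 (by positivity)
      have h3 : (2 : ℝ) ^ ⌊s / 4 * (J : ℝ)⌋₊ * (2 / 2 ^ L 0 j) * 2 ^ L 0 j =
          2 ^ (⌊s / 4 * (J : ℝ)⌋₊ + 1) := by
        rw [pow_succ]
        field_simp
      have h4 := h2.trans (h3.le.trans (pow_le_pow_right₀ (by norm_num) n1))
      rw [hL] at h4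
      exact h4

end Pool.ONE62
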