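import Pool.Agent.H62.ONE1.Fix
import Pool.Agent.H72.ONE1.Law
import Pool.Agent.H96.AVG.Fam
import Pool.Agent.H83.OWN.Fle

/-!
# The own velocity of a modified coordinate is a relative family

`few_mlb`: the digits of the own velocities over two labels, given the digits of the active
velocity. `rel_mlb`: the relative family. `mod_ipr_ct`, `mod_ipr`: the record of the ball does not
see it behind its natural digits, in the boxes of almost every point.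
-/

set_option autoImplicit false

namespace Pool.ONE62

open Finset Real
open Pool.Agent.H49.Ent Pool.Agent.H32.Dense Pool.STK Pool.KA Pool.KSAT Pool.K2S Pool.PB Pool.GEN
open Pool.S6C Pool.LA91 Pool.RCD Pool.OWN72 Pool.ONE72
open Pool.OWN83 (TwoRelS TRelS rel_clsS few_fn_self)
open Pool.AVG96 (few_cut)
open Pool.PRC54 (IprI ipr_ae)
open Pool.BFL (Pb)

variable {m J : ℕ}

/-! ### Elementary facts -/

theorem cl2_pair {F : Fam m J} {A : F.Ω → Prop} {x : ℝ} {a b : PtT F → ℝ}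
    (ha : Cl1 F A ⌊x * J⌋₊ a) (hb : Cl1 F A ⌊x * J⌋₊ b) :
    Cl2 (ptr F J) (vg x J F) A (fun ω => (a (ptr F J ω), b (ptr F J ω))) := by
  obtain ⟨a', ha⟩ := ha
  obtain ⟨b', hb⟩ := hb
  exact ⟨⟨fun p => (a p, b p), fun _ _ => rfl⟩, fun s => (a' s, b' s),
    fun ω hω => Prod.ext (ha ω hω) (hb ω hω)⟩

theorem pb_bad {F : Fam m J} {A B : F.Ω → Prop} (hA : 0 < Pe F.p A) (hB : Sub B A) {h : ℝ}
    (hP : (1 - h) * Pe F.p A ≤ Pe F.p B) :
    Pb (Pool.Agent.H49.Ent.cond F.p A True) (fun ω => ¬ B ω) ≤ h := by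
  rw [Pool.LA91.Pb_cond hA, div_le_iff₀ hA]
  have h1 := Pe_parts (p := F.p) (B := A) (B' := B) hB
  linarith

theorem log_le {n : ℕ} (hJ : 1 ≤ J) (hn : n ≤ J) :
    Real.log (2 * 2 ^ n + 3) ≤ 3 * J := by
  have h1 : (2 : ℝ) * 2 ^ n + 3 ≤ 5 * 2 ^ n := by
    have : (1 : ℝ) ≤ 2 ^ n := one_le_pow₀ (by norm_num)
    linarith
  have h2 : Real.log (5 * 2 ^ n) = Real.log 5 + n * Real.log 2 := by
    rw [Real.log_mul (by norm_num) (by positivity), Real.log_pow]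
  have h3 : Real.log 5 ≤ 2 := by
    rw [Real.log_le_iff_le_exp (by norm_num)]
    have h4 : Real.exp 2 = Real.exp 1 * Real.exp 1 := by
      rw [← Real.exp_add]
      norm_num
    have h5 := Real.exp_one_gt_d9
    rw [h4]
    nlinarith
  have h4 : Real.log 2 ≤ 1 := by
    have := Real.log_two_lt_d9
    linarith
  have h5 : (n : ℝ) ≤ J := by exact_mod_cast hn
  have h6 : (1 : ℝ) ≤ J := by exact_mod_cast hJ
  have h7 : (n : ℝ) * Real.log 2 ≤ J * 1 :=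
    mul_le_mul h5 h4 (Real.log_nonneg (by norm_num)) (by linarith)
  refine (Real.log_le_log (by positivity) h1).trans ?_
  rw [h2]
  linarith

theorem pow_cmp {a b c d : ℕ} (h : a + b ≤ c + d + 1) :
    (2 : ℝ) ^ a * 2 ^ b * (1 / 2 ^ c) ≤ 2 * 2 ^ d := by
  have h1 : (2 : ℝ) ^ (a + b) ≤ 2 ^ (c + d + 1) := pow_le_pow_right₀ (by norm_num) h
  have h2 : (0 : ℝ) < 2 ^ c := by positivity
  rw [mul_one_div, div_le_iff₀ h2, ← pow_add]
  refine h1.trans (le_of_eq ?_)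
  rw [pow_succ, pow_add]
  ring

/-! ### Two labels -/

/-- **The digits of the own velocities over two labels**, given the digits of the active
velocity. -/
theorem few_mlb {S : PCl m} {C₀ : ℝ} (htm : TmC S C₀)
    (hpos : ∀ (τ : ℝ) (J : ℕ) (F : Fam m J) (A : F.Ω → Prop), S.St τ J F A → 0 < Pe F.p A)
    {y : Fin m} (hact : Pool.MIC6.ActF S y) {g : ∀ (J : ℕ) (F : Fam m J), F.Ω → ℝ} {N : ℚ → ℝ}
    {w₁ w₂ o₁ o₂ : ℚ} {x P : ℝ} (h1 : (w₁ : ℝ) ≤ x) (h2 : (w₂ : ℝ) ≤ x) (hx : x ≤ 1)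
    (ho : N o₂ ≤ N o₁) (ho0 : 0 ≤ N o₂) (ho1 : N o₂ ≤ 1) (hP1 : N o₂ < N w₁ + P)
    (hP2 : N o₂ < N w₂ + P) {γ' : ∀ J : ℕ, Fam m J → Type}
    {yy : ∀ (J : ℕ) (F : Fam m J), F.Ω → γ' J F} :
    Few S (fun J F => ptr F J) (vg x) yy ((dQ y P).prod (mQ y g N w₁ o₁)) (mQ y g N w₂ o₂) := by
  intro h hh
  obtain ⟨σ, hσ⟩ : ∃ σ, σ = min (N w₁ + P - N o₂) (N w₂ + P - N o₂) / 4 := ⟨_, rfl⟩
  have hσ0 : 0 < σ := by
    rw [hσ]
    have : 0 < min (N w₁ + P - N o₂) (N w₂ + P - N o₂) := lt_min (by linarith) (by linarith)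
    linarith
  have hσ1 : N o₂ + 2 * σ ≤ N w₁ + P := by
    have := min_le_left (N w₁ + P - N o₂) (N w₂ + P - N o₂)
    linarith
  have hσ2 : N o₂ + 2 * σ ≤ N w₂ + P := by
    have := min_le_right (N w₁ + P - N o₂) (N w₂ + P - N o₂)
    linarith
  obtain ⟨J₂, hJ₂⟩ := exists_nat_ge (8 / h)
  refine ⟨σ, hσ0, fun K => Bas.mono (max 1 J₂) ((cf_zero htm hact x σ (h / 6) hσ0
    (by linarith)).and (pos_bas hpos)) ?_⟩
  rintro J hJ F A ⟨hcf, hA⟩ u u' ⟨hu₁, γ₁, γc₁, hl₁, hu₂⟩ ⟨γ₂, γc₂, hl₂, hu'⟩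
  have hJ1 : 1 ≤ J := (le_max_left _ _).trans hJ
  have hJ0 : (0 : ℝ) ≤ J := Nat.cast_nonneg J
  have hJh : 8 ≤ h * J := by
    have h3 : (J₂ : ℝ) ≤ J := by exact_mod_cast (le_max_right _ _).trans hJ
    have h4 := hJ₂.trans h3
    rw [div_le_iff₀ hh] at h4
    linarith
  have hxJ : ⌊x * (J : ℝ)⌋₊ ≤ J := floor_le hx J
  have hl₁' := hl₁.win (Nat.floor_le_floor (mul_le_mul_of_nonneg_right h1 hJ0)) hxJ
  have hl₂' := hl₂.win (Nat.floor_le_floor (mul_le_mul_of_nonneg_right h2 hJ0)) hxJ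
  obtain ⟨M₁, hM₁⟩ : ∃ M₁, M₁ = ⌊(N w₁ - σ) * (J : ℝ)⌋₊ := ⟨_, rfl⟩
  obtain ⟨M₂, hM₂⟩ : ∃ M₂, M₂ = ⌊(N w₂ - σ) * (J : ℝ)⌋₊ := ⟨_, rfl⟩
  obtain ⟨n₁, hn₁⟩ : ∃ n₁, n₁ = ⌊N o₁ * (J : ℝ)⌋₊ := ⟨_, rfl⟩
  obtain ⟨n₂, hn₂⟩ : ∃ n₂, n₂ = ⌊N o₂ * (J : ℝ)⌋₊ := ⟨_, rfl⟩
  obtain ⟨nP, hnP⟩ : ∃ nP, nP = ⌊P * (J : ℝ)⌋₊ := ⟨_, rfl⟩
  obtain ⟨ns, hns⟩ : ∃ ns, ns = ⌊(0 + σ) * (J : ℝ)⌋₊ := ⟨_, rfl⟩
  rw [← hM₁] at hl₁'
  rw [← hM₂] at hl₂'
  rw [← hn₁] at hu₂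
  rw [← hn₂] at hu'
  rw [← hns] at hcf
  have hnn : n₂ ≤ n₁ := by
    rw [hn₁, hn₂]
    exact Nat.floor_le_floor (mul_le_mul_of_nonneg_right ho hJ0)
  have f2 : (n₂ : ℝ) ≤ N o₂ * J := by
    rw [hn₂]
    exact Nat.floor_le (mul_nonneg ho0 hJ0)
  have hn₂J : n₂ ≤ J := by
    have h3 : (n₂ : ℝ) ≤ J := by nlinarith
    exact_mod_cast h3
  have fs : (ns : ℝ) ≤ σ * J := by
    rw [hns, zero_add]
    exact Nat.floor_le (by positivity)
  have fP : P * J - 1 < nP := by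
    rw [hnP]
    exact Nat.sub_one_lt_floor _
  have fM₁ : (N w₁ - σ) * J - 1 < M₁ := by
    rw [hM₁]
    exact Nat.sub_one_lt_floor _
  have fM₂ : (N w₂ - σ) * J - 1 < M₂ := by
    rw [hM₂]
    exact Nat.sub_one_lt_floor _
  have k₁ : n₂ + ns ≤ M₁ + nP + 1 := by
    have h3 : (N o₂ + 2 * σ) * J ≤ (N w₁ + P) * J := mul_le_mul_of_nonneg_right hσ1 hJ0
    have h4 : ((n₂ + ns : ℕ) : ℝ) < ((M₁ + nP + 2 : ℕ) : ℝ) := by
      push_cast
      linarith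
    have h5 : n₂ + ns < M₁ + nP + 2 := by exact_mod_cast h4
    omega
  have k₂ : n₂ + ns ≤ M₂ + nP + 1 := by
    have h3 : (N o₂ + 2 * σ) * J ≤ (N w₂ + P) * J := mul_le_mul_of_nonneg_right hσ2 hJ0
    have h4 : ((n₂ + ns : ℕ) : ℝ) < ((M₂ + nP + 2 : ℕ) : ℝ) := by
      push_cast
      linarith
    have h5 : n₂ + ns < M₂ + nP + 2 := by exact_mod_cast h4
    omega
  have q₁ := pow_cmp k₁
  have q₂ := pow_cmp k₂
  -- the difference of the labels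
  have hdif : ∀ ω, ov F y (g J F) γ₂ γc₂ ω = ov F y (g J F) γ₁ γc₁ ω +
      ((γc₁ (ptr F J ω) - γc₂ (ptr F J ω)) + (γ₁ (ptr F J ω) - γ₂ (ptr F J ω)) * F.d ω y) := by
    intro ω
    unfold ov
    ring
  have hc1 : Cl1 F A ⌊x * J⌋₊ (fun p => γ₁ p - γ₂ p) := Cl1.map2 (fun a b => a - b) hl₁'.ca hl₂'.ca
  have hc2 : Cl1 F A ⌊x * J⌋₊ (fun p => γc₁ p - γc₂ p) :=
    Cl1.map2 (fun a b => a - b) hl₁'.cc hl₂'.cc
  obtain ⟨B, hB, hPB, hb⟩ := hcf (fun p _ => γ₁ p - γ₂ p) (fun p => γc₁ p - γc₂ p)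
    (1 / 2 ^ M₁ + 1 / 2 ^ M₂) (by positivity) (fun _ _ => hc1) hc2 (fun ω hω => by
      rw [Finset.sum_singleton]
      have h3 := hl₁'.rep ω hω
      have h4 := hl₂'.rep ω hω
      have h5 : γc₁ (ptr F J ω) - γc₂ (ptr F J ω) +
          (γ₁ (ptr F J ω) - γ₂ (ptr F J ω)) * F.d ω y =
          ov F y (g J F) γ₂ γc₂ ω - ov F y (g J F) γ₁ γc₁ ω := by
        rw [hdif ω]
        ring
      rw [h5]
      refine (abs_sub _ _).trans ?_
      linarith)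
  have hcl := isLaw_cond F.isLaw hA
  refine ⟨ℝ × ℝ, fun ω => (γ₁ (ptr F J ω) - γ₂ (ptr F J ω), γc₁ (ptr F J ω) - γc₂ (ptr F J ω)),
    cl2_pair hc1 hc2, ?_⟩
  have key := CH_fl hcl (fun ω => 2 ^ n₂ * ov F y (g J F) γ₂ γc₂ ω)
    (fun ω => (u ω, ((γ₁ (ptr F J ω) - γ₂ (ptr F J ω), γc₁ (ptr F J ω) - γc₂ (ptr F J ω)),
      yy J F ω))) (fun v => 2 ^ n₂ * ((v.1.2 : ℝ) / 2 ^ n₁ + (v.2.1.2 + v.2.1.1 *
        ((v.1.1 : ℝ) / 2 ^ nP)))) (fun ω => ¬ B ω) (η := h / 6) (R := 2 ^ n₂) (D := 5)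
    (pb_bad hA hB hPB) (by positivity) (by norm_num) (fun ω hω => by
      have h3 := hl₂'.rep ω (of_cond_pos hω)
      have h4 : (1 : ℝ) / 2 ^ M₂ ≤ 1 := by
        rw [div_le_one (by positivity)]
        exact one_le_pow₀ (by norm_num)
      rw [abs_mul, abs_of_pos (by positivity : (0 : ℝ) < 2 ^ n₂)]
      calc (2 : ℝ) ^ n₂ * |ov F y (g J F) γ₂ γc₂ ω| ≤ 2 ^ n₂ * 1 :=
            mul_le_mul_of_nonneg_left (h3.trans h4) (by positivity)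
        _ = 2 ^ n₂ := mul_one _) (fun ω hω hBω => by
      have hω' := of_cond_pos hω
      have hBω' : B ω := not_not.1 hBω
      obtain ⟨b1, -⟩ := hb ω hBω'
      have b2 : |γ₁ (ptr F J ω) - γ₂ (ptr F J ω)| ≤ (1 / 2 ^ M₁ + 1 / 2 ^ M₂) * 2 ^ ns :=
        b1 y (Finset.mem_singleton_self y)
      have e1 : (u ω).2 = ⌊(2 : ℝ) ^ n₁ * ov F y (g J F) γ₁ γc₁ ω⌋ := hu₂ ω hω'
      have e2 : (u ω).1 = ⌊(2 : ℝ) ^ nP * F.d ω y⌋ := by
        rw [hnP]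
        exact hu₁ ω hω'
      simp only
      rw [e1, e2, hdif ω]
      have p1 : (0 : ℝ) < 2 ^ n₁ := by positivity
      have p2 : (0 : ℝ) < 2 ^ n₂ := by positivity
      have p3 : (0 : ℝ) < 2 ^ nP := by positivity
      obtain ⟨a, ha⟩ : ∃ a, a = ov F y (g J F) γ₁ γc₁ ω := ⟨_, rfl⟩
      obtain ⟨δ, hδ⟩ : ∃ δ, δ = γ₁ (ptr F J ω) - γ₂ (ptr F J ω) := ⟨_, rfl⟩
      obtain ⟨δc, hδc⟩ : ∃ δc, δc = γc₁ (ptr F J ω) - γc₂ (ptr F J ω) := ⟨_, rfl⟩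
      obtain ⟨d, hd⟩ : ∃ d, d = F.d ω y := ⟨_, rfl⟩
      rw [← ha, ← hδ, ← hδc, ← hd]
      rw [← hδ] at b2
      have c1 : |a - (⌊(2 : ℝ) ^ n₁ * a⌋ : ℝ) / 2 ^ n₁| ≤ 1 / 2 ^ n₁ := by
        have h3 : a - (⌊(2 : ℝ) ^ n₁ * a⌋ : ℝ) / 2 ^ n₁ =
            (2 ^ n₁ * a - ⌊(2 : ℝ) ^ n₁ * a⌋) / 2 ^ n₁ := by field_simp
        rw [h3, abs_div, abs_of_pos p1]
        refine div_le_div_of_nonneg_right ?_ p1.le
        rw [abs_le]
        constructor <;> linarith [Int.floor_le ((2 : ℝ) ^ n₁ * a),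
          Int.lt_floor_add_one ((2 : ℝ) ^ n₁ * a)]
      have c2 : |d - (⌊(2 : ℝ) ^ nP * d⌋ : ℝ) / 2 ^ nP| ≤ 1 / 2 ^ nP := by
        have h3 : d - (⌊(2 : ℝ) ^ nP * d⌋ : ℝ) / 2 ^ nP =
            (2 ^ nP * d - ⌊(2 : ℝ) ^ nP * d⌋) / 2 ^ nP := by field_simp
        rw [h3, abs_div, abs_of_pos p3]
        refine div_le_div_of_nonneg_right ?_ p3.le
        rw [abs_le]
        constructor <;> linarith [Int.floor_le ((2 : ℝ) ^ nP * d),
          Int.lt_floor_add_one ((2 : ℝ) ^ nP * d)]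
      have c3 : 2 ^ n₂ * (a + (δc + δ * d)) - 2 ^ n₂ * ((⌊(2 : ℝ) ^ n₁ * a⌋ : ℝ) / 2 ^ n₁ +
          (δc + δ * ((⌊(2 : ℝ) ^ nP * d⌋ : ℝ) / 2 ^ nP))) =
          2 ^ n₂ * (a - (⌊(2 : ℝ) ^ n₁ * a⌋ : ℝ) / 2 ^ n₁) +
          2 ^ n₂ * (δ * (d - (⌊(2 : ℝ) ^ nP * d⌋ : ℝ) / 2 ^ nP)) := by ring
      rw [c3]
      have c4 : |2 ^ n₂ * (a - (⌊(2 : ℝ) ^ n₁ * a⌋ : ℝ) / 2 ^ n₁)| ≤ 1 := by
        rw [abs_mul, abs_of_pos p2]
        calc (2 : ℝ) ^ n₂ * |a - (⌊(2 : ℝ) ^ n₁ * a⌋ : ℝ) / 2 ^ n₁| ≤ 2 ^ n₂ * (1 / 2 ^ n₁) :=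
              mul_le_mul_of_nonneg_left c1 p2.le
          _ ≤ 1 := by
            rw [mul_one_div, div_le_one p1]
            exact pow_le_pow_right₀ (by norm_num) hnn
      have c5 : |2 ^ n₂ * (δ * (d - (⌊(2 : ℝ) ^ nP * d⌋ : ℝ) / 2 ^ nP))| ≤ 4 := by
        rw [abs_mul, abs_of_pos p2, abs_mul]
        calc (2 : ℝ) ^ n₂ * (|δ| * |d - (⌊(2 : ℝ) ^ nP * d⌋ : ℝ) / 2 ^ nP|) ≤
            2 ^ n₂ * ((1 / 2 ^ M₁ + 1 / 2 ^ M₂) * 2 ^ ns * (1 / 2 ^ nP)) :=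
              mul_le_mul_of_nonneg_left (mul_le_mul b2 c2 (abs_nonneg _) (by positivity)) p2.le
          _ = (2 ^ n₂ * 2 ^ ns * (1 / 2 ^ M₁) + 2 ^ n₂ * 2 ^ ns * (1 / 2 ^ M₂)) * (1 / 2 ^ nP) := by
              ring
          _ ≤ (2 * 2 ^ nP + 2 * 2 ^ nP) * (1 / 2 ^ nP) :=
              mul_le_mul_of_nonneg_right (by linarith) (by positivity)
          _ = 4 := by
              field_simp
              norm_num
      refine (abs_add_le _ _).trans ?_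
      linarith)
  have hlg := log_le hJ1 hn₂J
  have hl13 : Real.log (2 * 5 + 3) ≤ 3 := by
    rw [Real.log_le_iff_le_exp (by norm_num)]
    have h4 : Real.exp 3 = Real.exp 1 * Real.exp 1 * Real.exp 1 := by
      rw [← Real.exp_add, ← Real.exp_add]
      norm_num
    have h5 := Real.exp_one_gt_d9
    have h6 : (2.7 : ℝ) ≤ Real.exp 1 := by linarith
    rw [h4]
    nlinarith [mul_le_mul h6 h6 (by norm_num) (by linarith : (0 : ℝ) ≤ Real.exp 1)]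
  have hl2 : Real.log 2 ≤ 1 := by
    have := Real.log_two_lt_d9
    linarith
  have hmul : h / 6 * Real.log (2 * 2 ^ n₂ + 3) ≤ h / 6 * (3 * J) :=
    mul_le_mul_of_nonneg_left hlg (by linarith)
  have hfin : CH (Pool.Agent.H49.Ent.cond F.p A True) u' (fun ω => (u ω,
      ((γ₁ (ptr F J ω) - γ₂ (ptr F J ω), γc₁ (ptr F J ω) - γc₂ (ptr F J ω)), yy J F ω))) =
      CH (Pool.Agent.H49.Ent.cond F.p A True)
        (fun ω => ⌊2 ^ n₂ * ov F y (g J F) γ₂ γc₂ ω⌋) (fun ω => (u ω,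
      ((γ₁ (ptr F J ω) - γ₂ (ptr F J ω), γc₁ (ptr F J ω) - γc₂ (ptr F J ω)), yy J F ω))) := by
    refine CH_congr hcl.nonneg (fun ω ω' a b hh => ?_) (fun ω ω' a b hh => ?_)
      (fun _ _ _ _ hh => hh) (fun _ _ _ _ hh => hh)
    · rw [← hu' ω (of_cond_pos a), ← hu' ω' (of_cond_pos b)]
      exact (Prod.ext_iff.mp hh).1
    · rw [hu' ω (of_cond_pos a), hu' ω' (of_cond_pos b)]
      exact (Prod.ext_iff.mp hh).1
  rw [hfin]
  refine key.trans ?_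
  have e1 : h / 6 * (3 * (J : ℝ)) = h * J / 2 := by ring
  rw [e1] at hmul
  refine (add_le_add (add_le_add hl2 hl13) hmul).trans ?_
  linarith only [hJh]

/-- **The digits over the labels of the same window** are few bits. -/
theorem few0_mq {S : PCl m}
    (hpos : ∀ (τ : ℝ) (J : ℕ) (F : Fam m J) (A : F.Ω → Prop), S.St τ J F A → 0 < Pe F.p A)
    {y : Fin m} {g : ∀ (J : ℕ) (F : Fam m J), F.Ω → ℝ} {N : ℚ → ℝ} {w : ℚ} (hN : 0 ≤ N w) {x : ℝ}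
    {γ' : ∀ J : ℕ, Fam m J → Type} {yy : ∀ (J : ℕ) (F : Fam m J), F.Ω → γ' J F} :
    Few0 S (fun J F => ptr F J) (vg x) yy (mQ y g N w w) := by
  intro h hh
  obtain ⟨J₂, hJ₂⟩ := exists_nat_ge (8 / h)
  refine ⟨h / 2, by linarith, fun K => Bas.mono J₂ (pos_bas hpos) ?_⟩
  rintro J hJ F A hA u ⟨γ, γc, hl, hu⟩
  have hJ0 : (0 : ℝ) ≤ J := Nat.cast_nonneg J
  have hJh : 8 ≤ h * J := by
    have h3 : (J₂ : ℝ) ≤ J := by exact_mod_cast hJ
    have h4 := hJ₂.trans h3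
    rw [div_le_iff₀ hh] at h4
    linarith
  obtain ⟨M, hM⟩ : ∃ M, M = ⌊(N w - h / 2) * (J : ℝ)⌋₊ := ⟨_, rfl⟩
  obtain ⟨n, hn⟩ : ∃ n, n = ⌊N w * (J : ℝ)⌋₊ := ⟨_, rfl⟩
  obtain ⟨l, hl'⟩ : ∃ l, l = ⌊h / 2 * (J : ℝ)⌋₊ := ⟨_, rfl⟩
  rw [← hM] at hl
  rw [← hn] at hu
  have fn : (n : ℝ) ≤ N w * J := by
    rw [hn]
    exact Nat.floor_le (mul_nonneg hN hJ0)
  have fM : (N w - h / 2) * J - 1 < M := by
    rw [hM]
    exact Nat.sub_one_lt_floor _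
  have fl : h / 2 * J - 1 < l := by
    rw [hl']
    exact Nat.sub_one_lt_floor _
  have fl2 : (l : ℝ) ≤ h / 2 * J := by
    rw [hl']
    exact Nat.floor_le (by positivity)
  have k₁ : n + 0 ≤ M + l + 1 := by
    have h4 : ((n : ℕ) : ℝ) < ((M + l + 2 : ℕ) : ℝ) := by
      push_cast
      linarith
    have h5 : n < M + l + 2 := by exact_mod_cast h4
    omega
  have q₁ := pow_cmp k₁
  rw [pow_zero, mul_one] at q₁
  have hcl := isLaw_cond F.isLaw hA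
  refine ⟨Unit, fun _ => (), ⟨⟨fun _ => (), fun _ _ => rfl⟩, fun _ => (), fun _ _ => rfl⟩, ?_⟩
  have hx : ∀ ω, 0 < Pool.Agent.H49.Ent.cond F.p A True ω →
      |(2 : ℝ) ^ n * ov F y (g J F) γ γc ω| ≤ 2 * 2 ^ l := fun ω hω => by
    have h3 := hl.rep ω (of_cond_pos hω)
    rw [abs_mul, abs_of_pos (by positivity : (0 : ℝ) < 2 ^ n)]
    exact (mul_le_mul_of_nonneg_left h3 (by positivity)).trans q₁
  have key := CH_fl hcl (fun ω => 2 ^ n * ov F y (g J F) γ γc ω)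
    (fun ω => ((), yy J F ω)) (fun _ => 0) (fun _ => False) (η := 0) (R := 2 * 2 ^ l)
    (D := 2 * 2 ^ l) (by
      unfold Pb
      refine le_of_eq (Finset.sum_eq_zero fun ω _ => ?_)
      exact if_neg not_false) (by positivity) (by positivity) hx
    (fun ω hω _ => by
      rw [sub_zero]
      exact hx ω hω)
  have hfin : CH (Pool.Agent.H49.Ent.cond F.p A True) u (fun ω => ((), yy J F ω)) =
      CH (Pool.Agent.H49.Ent.cond F.p A True)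
        (fun ω => ⌊2 ^ n * ov F y (g J F) γ γc ω⌋) (fun ω => ((), yy J F ω)) := by
    refine CH_congr hcl.nonneg (fun ω ω' a b hh => ?_) (fun ω ω' a b hh => ?_)
      (fun _ _ _ _ hh => hh) (fun _ _ _ _ hh => hh)
    · rw [← hu ω (of_cond_pos a), ← hu ω' (of_cond_pos b)]
      exact (Prod.ext_iff.mp hh).1
    · rw [hu ω (of_cond_pos a), hu ω' (of_cond_pos b)]
      exact (Prod.ext_iff.mp hh).1
  rw [hfin]
  refine key.trans ?_
  rw [zero_mul, add_zero]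
  have l2 : Real.log 2 ≤ 1 := by
    have := Real.log_two_lt_d9
    linarith
  have l3 : Real.log (2 * (2 * 2 ^ l) + 3) ≤ 2 + l := by
    have h1 : (2 : ℝ) * (2 * 2 ^ l) + 3 ≤ 7 * 2 ^ l := by
      have : (1 : ℝ) ≤ 2 ^ l := one_le_pow₀ (by norm_num)
      linarith
    have h2 : Real.log (7 * 2 ^ l) = Real.log 7 + l * Real.log 2 := by
      rw [Real.log_mul (by norm_num) (by positivity), Real.log_pow]
    have h3 : Real.log 7 ≤ 2 := by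
      rw [Real.log_le_iff_le_exp (by norm_num)]
      have h4 : Real.exp 2 = Real.exp 1 * Real.exp 1 := by
        rw [← Real.exp_add]
        norm_num
      have h5 := Real.exp_one_gt_d9
      rw [h4]
      nlinarith
    have h4 : (l : ℝ) * Real.log 2 ≤ l * 1 := mul_le_mul_of_nonneg_left l2 (Nat.cast_nonneg l)
    refine (Real.log_le_log (by positivity) h1).trans ?_
    rw [h2]
    linarith
  have e1 : h / 2 * (J : ℝ) = h * J / 2 := by ring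
  rw [e1] at fl2
  refine (add_le_add l2 l3).trans ?_
  linarith

/-- The digits exist. -/
theorem exs_mq {S : PCl m} {y : Fin m} {g : ∀ (J : ℕ) (F : Fam m J), F.Ω → ℝ} {A B : ℝ}
    {N : ℚ → ℝ} (hN : MNum S y g A B N) {w : ℚ} (hA : A < w) (hB : (w : ℝ) < B) (hw : 0 < N w)
    (o : ℚ) (ho : N o ≤ 1) : Exs S (mQ y g N w o) := by
  intro e he
  obtain ⟨e', he'⟩ : ∃ e', e' = min e (N w / 2) := ⟨_, rfl⟩
  have h0 : 0 < e' := by rw [he']; exact lt_min he (by linarith)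
  have h1 : e' ≤ e := by rw [he']; exact min_le_left _ _
  have h2 : e' < N w := by
    have : e' ≤ N w / 2 := by rw [he']; exact min_le_right _ _
    linarith
  refine ⟨0, 3, Bas.mono 1 (hN.att w hA hB e' h0 h2) ?_⟩
  rintro J hJ F A' ⟨γ, γc, hl⟩
  have hJ0 : (0 : ℝ) ≤ J := Nat.cast_nonneg J
  obtain ⟨n, hn⟩ : ∃ n, n = ⌊N o * (J : ℝ)⌋₊ := ⟨_, rfl⟩
  have hnJ : n ≤ J := by
    rw [hn]
    exact floor_le ho J
  refine ⟨fun ω => ⌊(2 : ℝ) ^ ⌊N o * J⌋₊ * ov F y (g J F) γ γc ω⌋, ⟨γ, γc,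
    hl.anti (Nat.floor_le_floor (mul_le_mul_of_nonneg_right (by linarith) hJ0)),
    fun ω _ => rfl⟩, ?_⟩
  rw [← hn]
  classical
  have h3 : (cnt F.p (fun ω => ⌊(2 : ℝ) ^ n * ov F y (g J F) γ γc ω⌋) A' : ℝ) ≤
      2 * 2 ^ n + 3 := by
    have h4 := cnt_le_card F.p (fun ω => ⌊(2 : ℝ) ^ n * ov F y (g J F) γ γc ω⌋) (A := A')
      (Finset.Icc (-(2 ^ n : ℤ)) (2 ^ n)) (fun ω _ hω => by
        have h5 := hl.rep ω hω
        have h6 : (1 : ℝ) / 2 ^ ⌊(N w - e') * (J : ℝ)⌋₊ ≤ 1 := by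
          rw [div_le_one (by positivity)]
          exact one_le_pow₀ (by norm_num)
        have h7 := abs_le.1 (h5.trans h6)
        have h8 : (0 : ℝ) < 2 ^ n := by positivity
        rw [Finset.mem_Icc]
        constructor
        · refine Int.le_floor.2 ?_
          push_cast
          nlinarith
        · have h9 : (⌊(2 : ℝ) ^ n * ov F y (g J F) γ γc ω⌋ : ℝ) ≤
              2 ^ n * ov F y (g J F) γ γc ω := Int.floor_le _
          have h10 : (⌊(2 : ℝ) ^ n * ov F y (g J F) γ γc ω⌋ : ℝ) ≤ ((2 ^ n : ℤ) : ℝ) := by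
            push_cast
            nlinarith
          exact (Int.cast_le (R := ℝ)).1 h10)
    have h5 : ((Finset.Icc (-(2 ^ n : ℤ)) (2 ^ n)).card : ℝ) = 2 * 2 ^ n + 1 := by
      rw [Int.card_Icc]
      have : (2 : ℤ) ^ n + 1 - -2 ^ n = ((2 * 2 ^ n + 1 : ℕ) : ℤ) := by
        push_cast
        ring
      rw [this, Int.toNat_natCast]
      push_cast
      ring
    have h6 : (cnt F.p (fun ω => ⌊(2 : ℝ) ^ n * ov F y (g J F) γ γc ω⌋) A' : ℝ) ≤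
        ((Finset.Icc (-(2 ^ n : ℤ)) (2 ^ n)).card : ℝ) := by exact_mod_cast h4
    rw [h5] at h6
    linarith
  have h4 := log_le hJ hnJ
  have h5 : (0 : ℝ) < 2 * 2 ^ n + 3 := by positivity
  rw [Real.log_le_iff_le_exp h5] at h4
  exact h3.trans h4

/-- The digits of the active velocity exist. -/
theorem exs_dq {S : PCl m} (y : Fin m) (P : ℝ) : Exs S (dQ y P) := by
  intro e he
  refine ⟨0, |P| + 3, ⟨1, one_pos, 1, fun J hJ F A _ => ?_⟩⟩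
  refine ⟨fun ω => F.D ⌊P * J⌋₊ ω y, fun ω _ => rfl, ?_⟩
  have hJ0 : (0 : ℝ) ≤ J := Nat.cast_nonneg J
  have hJ1 : (1 : ℝ) ≤ J := by exact_mod_cast hJ
  obtain ⟨n, hn⟩ : ∃ n, n = ⌊P * (J : ℝ)⌋₊ := ⟨_, rfl⟩
  have fn : (n : ℝ) ≤ |P| * J := by
    have h1 : n ≤ ⌊|P| * (J : ℝ)⌋₊ := by
      rw [hn]
      exact Nat.floor_le_floor (mul_le_mul_of_nonneg_right (le_abs_self P) hJ0)
    have h2 : (n : ℝ) ≤ (⌊|P| * (J : ℝ)⌋₊ : ℕ) := by exact_mod_cast h1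
    exact h2.trans (Nat.floor_le (by positivity))
  rw [← hn]
  classical
  have h4 := cnt_le_card F.p (fun ω => F.D n ω y) (A := A)
    (Finset.Icc (-(2 ^ n : ℤ)) (2 ^ n)) (fun ω _ _ => by
      have h7 := abs_le.1 (F.dir ω y)
      have h8 : (0 : ℝ) < 2 ^ n := by positivity
      rw [Finset.mem_Icc]
      constructor
      · refine Int.le_floor.2 ?_
        push_cast
        nlinarith
      · have h9 : (⌊(2 : ℝ) ^ n * F.d ω y⌋ : ℝ) ≤ 2 ^ n * F.d ω y := Int.floor_le _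
        have h10 : (⌊(2 : ℝ) ^ n * F.d ω y⌋ : ℝ) ≤ ((2 ^ n : ℤ) : ℝ) := by
          push_cast
          nlinarith
        exact (Int.cast_le (R := ℝ)).1 h10)
  have h5 : ((Finset.Icc (-(2 ^ n : ℤ)) (2 ^ n)).card : ℝ) = 2 * 2 ^ n + 1 := by
    rw [Int.card_Icc]
    have : (2 : ℤ) ^ n + 1 - -2 ^ n = ((2 * 2 ^ n + 1 : ℕ) : ℤ) := by
      push_cast
      ring
    rw [this, Int.toNat_natCast]
    push_cast
    ring
  have h6 : (cnt F.p (fun ω => F.D n ω y) A : ℝ) ≤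
      ((Finset.Icc (-(2 ^ n : ℤ)) (2 ^ n)).card : ℝ) := by exact_mod_cast h4
  rw [h5] at h6
  have h7 : (2 : ℝ) * 2 ^ n + 1 ≤ 3 * 2 ^ n := by
    have : (1 : ℝ) ≤ 2 ^ n := one_le_pow₀ (by norm_num)
    linarith
  have h8 : (3 : ℝ) * 2 ^ n ≤ Real.exp ((|P| + 3) * J) := by
    rw [← Real.log_le_iff_le_exp (by positivity), Real.log_mul (by norm_num) (by positivity),
      Real.log_pow]
    have l2 : Real.log 2 ≤ 1 := by
      have := Real.log_two_lt_d9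
      linarith
    have l3 : Real.log 3 ≤ 3 := by
      have := Real.log_le_sub_one_of_pos (show (0 : ℝ) < 3 by norm_num)
      linarith
    have h4 : (n : ℝ) * Real.log 2 ≤ n * 1 := mul_le_mul_of_nonneg_left l2 (Nat.cast_nonneg n)
    nlinarith
  exact h6.trans (h7.trans h8)

/-! ### The relative family -/

/-- **The own velocity is a relative family** over the digits of the active velocity. -/
theorem rel_mlb {S : PCl m} {C₀ : ℝ} (htm : TmC S C₀)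
    (hpos : ∀ (τ : ℝ) (J : ℕ) (F : Fam m J) (A : F.Ω → Prop), S.St τ J F A → 0 < Pe F.p A)
    {y : Fin m} (hact : Pool.MIC6.ActF S y) {g : ∀ (J : ℕ) (F : Fam m J), F.Ω → ℝ} {A B : ℝ}
    (hB1 : B ≤ 1) {N : ℚ → ℝ} (hN : MNum S y g A B N) {a b : ℚ} (hA : A < a) (hB : (b : ℝ) < B)
    (h0 : 0 < N a) {P : ℝ} (hP : N b < N a + P) {γ' : ∀ J : ℕ, Fam m J → Type}
    {yy : ∀ (J : ℕ) (F : Fam m J), F.Ω → γ' J F} (lam : ℝ) :
    TwoRelS S (fun J F => ptr F J) yy 0 (fun _ => dQ y P) (mQ y g N) a b lam := by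
  have m1 : ∀ w : ℚ, (a : ℝ) < w → (w : ℝ) < b → N a ≤ N w := fun w h1 h2 =>
    hN.mono a w hA (by exact_mod_cast h1.le) (by linarith)
  have m2 : ∀ w : ℚ, (a : ℝ) < w → (w : ℝ) < b → N w ≤ N b := fun w h1 h2 =>
    hN.mono w b (by linarith) (by exact_mod_cast h2.le) hB
  have n1 : ∀ w : ℚ, (a : ℝ) < w → (w : ℝ) < b → N w ≤ 1 := fun w h1 h2 =>
    hN.n1 w (by linarith) (by linarith)
  have mn : ∀ w v : ℚ, (a : ℝ) < w → w ≤ v → (v : ℝ) < b → N w ≤ N v := fun w v h1 h2 h3 =>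
    hN.mono w v (by linarith) h2 (by linarith)
  refine
    { exs₀ := fun w _ _ => exs_dq y P
      exs := fun w o h1 h2 h3 h4 => ?_
      tr := fun w v _ _ _ _ => few_fn_self hpos
      row := fun w v o h1 h2 h3 h4 h5 => ?_
      chg := fun w v o h1 h2 h3 h4 h5 => ?_
      own := fun w v h1 h2 h3 h4 => ?_ }
  · have h2' : (w : ℝ) ≤ o := by exact_mod_cast h2
    exact exs_mq hN (by linarith) (by linarith) (by linarith [m1 w h1 (by linarith)]) o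
      (n1 o (by linarith) h3)
  · have h2' : (w : ℝ) ≤ v := by exact_mod_cast h2
    have h3' : (v : ℝ) ≤ o := by exact_mod_cast h3
    have k1 := m1 w h1 (by linarith)
    have k2 := m2 v (by linarith) (by linarith)
    have k3 := m1 v (by linarith) (by linarith)
    exact few_mlb htm hpos hact (by linarith) (by linarith) (by linarith)
      (mn v o (by linarith) h3 h4) (by linarith) (n1 v (by linarith) (by linarith))
      (by linarith) (by linarith)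
  · have h2' : (w : ℝ) ≤ v := by exact_mod_cast h2
    have h3' : (v : ℝ) ≤ o := by exact_mod_cast h3
    have k1 := m1 w h1 (by linarith)
    have k2 := m2 o (by linarith) (by linarith)
    have k3 := m1 v (by linarith) (by linarith)
    have k4 := m1 o (by linarith) (by linarith)
    exact few_mlb htm hpos hact (by linarith) (by linarith) (by linarith)
      le_rfl (by linarith) (n1 o (by linarith) (by linarith)) (by linarith) (by linarith)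
  · have h2' : (w : ℝ) ≤ v := by exact_mod_cast h2
    have k1 := m1 w h1 (by linarith)
    have k2 := m2 v (by linarith) (by linarith)
    have k3 := m1 v (by linarith) (by linarith)
    refine few_cut hpos (exs_mq hN (by linarith) (by linarith) (by linarith) v
      (n1 v (by linarith) (by linarith))) (Few0.few hpos (few0_mq hpos (by linarith))) ?_
    exact few_mlb htm hpos hact (by linarith) (by linarith) (by linarith)
      le_rfl (by linarith) (n1 v (by linarith) (by linarith)) (by linarith) (by linarith)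

/-! ### Almost every point -/

open Set MeasureTheory in
/-- **Monotone numbers at rational indices** are nearly constant in a neighbourhood of almost every
point. -/
theorem mono_ae {A B : ℝ} {N : ℚ → ℝ} (h0 : ∀ w : ℚ, A < w → (w : ℝ) < B → 0 ≤ N w)
    (h1 : ∀ w : ℚ, A < w → (w : ℝ) < B → N w ≤ 1)
    (hm : ∀ w v : ℚ, A < w → w ≤ v → (v : ℝ) < B → N w ≤ N v) :
    ∀ᵐ x : ℝ, A < x → x < B → ∀ e : ℝ, 0 < e → ∃ a b : ℚ, A < a ∧ (a : ℝ) < x ∧ x < b ∧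
      (b : ℝ) < B ∧ N b < N a + e := by
  obtain ⟨T, hT⟩ : ∃ T : ℝ → Set ℝ, T = fun x => {v | v = 0 ∨ ∃ w : ℚ, A < w ∧ (w : ℝ) < B ∧
    (w : ℝ) ≤ x ∧ v = N w} := ⟨_, rfl⟩
  have T0 : ∀ x, (0 : ℝ) ∈ T x := fun x => by rw [hT]; exact Or.inl rfl
  have Tw : ∀ (x : ℝ) (w : ℚ), A < w → (w : ℝ) < B → (w : ℝ) ≤ x → N w ∈ T x :=
    fun x w a b c => by rw [hT]; exact Or.inr ⟨w, a, b, c, rfl⟩
  have Tm : ∀ x v, v ∈ T x → v = 0 ∨ ∃ w : ℚ, A < w ∧ (w : ℝ) < B ∧ (w : ℝ) ≤ x ∧ v = N w :=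
    fun x v hv => by rw [hT] at hv; exact hv
  have Tb : ∀ x, BddAbove (T x) := by
    intro x
    refine ⟨1, fun v hv => ?_⟩
    rcases Tm x v hv with rfl | ⟨w, a, b, c, rfl⟩
    · exact zero_le_one
    · exact h1 w a b
  obtain ⟨M, hM⟩ : ∃ M : ℝ → ℝ, M = fun x => sSup (T x) := ⟨_, rfl⟩
  have Mm : Monotone M := by
    intro x x' hx
    rw [hM]
    refine csSup_le_csSup (Tb x') ⟨0, T0 x⟩ fun v hv => ?_
    rcases Tm x v hv with rfl | ⟨w, a, b, c, rfl⟩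
    · exact T0 x'
    · exact Tw x' w a b (c.trans hx)
  filter_upwards [(Mm.countable_not_continuousAt).ae_notMem volume] with x hx hxA hxB e he
  have hc : ContinuousAt M x := by
    by_contra hcon
    exact hx hcon
  obtain ⟨δ, hδ, hd⟩ := Metric.continuousAt_iff.1 hc (e / 2) (half_pos he)
  obtain ⟨a, a1, a2⟩ := exists_rat_btwn (show max A (x - δ) < x from max_lt hxA (by linarith))
  obtain ⟨b, b1, b2⟩ := exists_rat_btwn (show x < min B (x + δ) from lt_min hxB (by linarith))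
  have a3 : A < a := (le_max_left _ _).trans_lt a1
  have a4 : x - δ < a := (le_max_right _ _).trans_lt a1
  have b3 : (b : ℝ) < B := b2.trans_le (min_le_left _ _)
  have b4 : (b : ℝ) < x + δ := b2.trans_le (min_le_right _ _)
  refine ⟨a, b, a3, a2, b1, b3, ?_⟩
  have c1 := hd (x := (a : ℝ)) (by
    rw [Real.dist_eq, abs_lt]
    constructor <;> linarith)
  have c2 := hd (x := (b : ℝ)) (by
    rw [Real.dist_eq, abs_lt]
    constructor <;> linarith)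
  rw [Real.dist_eq, abs_lt] at c1 c2
  have d1 : N b ≤ M b := by
    rw [hM]
    exact le_csSup (Tb b) (Tw b b (by linarith) b3 le_rfl)
  have d2 : M a ≤ N a := by
    rw [hM]
    refine csSup_le ⟨0, T0 a⟩ fun v hv => ?_
    rcases Tm a v hv with rfl | ⟨w, w1, w2, w3, rfl⟩
    · exact h0 a a3 (by linarith)
    · exact hm w a w1 (by exact_mod_cast w3) (by linarith)
  linarith [c1.1, c1.2, c2.1, c2.2]

open Set MeasureTheory in
/-- **The record of the ball does not see the own velocity of** `g` behind its natural digits, in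
the boxes of almost every point, for countably many functions. -/
theorem mod_ipr_ct {ι : Type} [Countable ι] {S : PCl m} (hS : S.Ne)
    (hpos : ∀ (τ : ℝ) (J : ℕ) (F : Fam m J) (A : F.Ω → Prop), S.St τ J F A → 0 < Pe F.p A)
    {C₀ : ℝ} (htm : TmC S C₀) (y : ι → Fin m) (hact : ∀ i, Pool.MIC6.ActF S (y i)) (A B : ι → ℝ)
    (hB1 : ∀ i, B i ≤ 1)
    (hη : ∀ (i : ι) (w : ℚ), A i < w → (w : ℝ) < B i →
      ∃ η, RNum S (fun J F => ptr F J) (vg (w : ℝ)) η)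
    (g : ι → ∀ (J : ℕ) (F : Fam m J), F.Ω → ℝ) (N : ι → ℚ → ℝ)
    (hN : ∀ i, MNum S (y i) (g i) (A i) (B i) (N i)) :
    ∃ S' : PCl m, S'.Ne ∧
      (∀ (τ : ℝ) (J : ℕ) (F : Fam m J) (A : F.Ω → Prop), S'.St τ J F A → S.St τ J F A) ∧
      ∀ i, ∀ᵐ x : ℝ, (∃ w : ℚ, A i < w ∧ (w : ℝ) < x ∧ 0 < N i w) → x < B i → ∀ P : ℚ, 0 < P →
        ∃ θ : ℚ → ℚ → ℝ, IprI S' (fun J F => ptr F J) (fun J F => F.W) 0 (dQ (y i) P)
          (mQ (y i) (g i) (N i)) θ x := by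
  obtain ⟨κ, hκ⟩ : ∃ κ : Type, κ = {t : ι × ℚ × ℚ × ℚ // A t.1 < t.2.1 ∧
    ((t.2.1 : ℚ) : ℝ) < t.2.2.1 ∧ ((t.2.2.1 : ℚ) : ℝ) < B t.1 ∧ 0 < N t.1 t.2.1 ∧
    N t.1 t.2.2.1 < N t.1 t.2.1 + (t.2.2.2 : ℝ)} := ⟨_, rfl⟩
  subst hκ
  obtain ⟨S', g1, g2, g3⟩ := rel_clsS (ι := {t : ι × ℚ × ℚ × ℚ // A t.1 < t.2.1 ∧
    ((t.2.1 : ℚ) : ℝ) < t.2.2.1 ∧ ((t.2.2.1 : ℚ) : ℝ) < B t.1 ∧ 0 < N t.1 t.2.1 ∧
    N t.1 t.2.2.1 < N t.1 t.2.1 + (t.2.2.2 : ℝ)}) hS hpos (fun _ => ℤ) (fun _ => ℤ) (fun _ J F => PtT F)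
    (fun _ J F => ℕ × F.ζ) (fun _ J F => ptr F J) (fun _ J F => F.W) (fun _ => 0)
    (fun t _ => dQ (y t.1.1) (t.1.2.2.2 : ℝ)) (fun t => mQ (y t.1.1) (g t.1.1) (N t.1.1))
    (fun t => ((t.1.2.1 : ℚ) : ℝ)) (fun t => ((t.1.2.2.1 : ℚ) : ℝ))
    (fun t => ((t.1.2.2.1 : ℚ) : ℝ) - ((t.1.2.1 : ℚ) : ℝ))
    (fun t => rel_mlb htm hpos (hact _) (hB1 _) (hN _) t.2.1 t.2.2.2.1 t.2.2.2.2.1 t.2.2.2.2.2 _)
    (fun t => by linarith [t.2.2.1])
  refine ⟨S', g1, g2, fun i => ?_⟩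
  have hpos' : ∀ (τ : ℝ) (J : ℕ) (F : Fam m J) (A : F.Ω → Prop), S'.St τ J F A → 0 < Pe F.p A :=
    fun τ J F A h => hpos τ J F A (g2 τ J F A h)
  have key : ∀ᵐ x : ℝ, ∀ t : {t : ι × ℚ × ℚ × ℚ // A t.1 < t.2.1 ∧
      ((t.2.1 : ℚ) : ℝ) < t.2.2.1 ∧ ((t.2.2.1 : ℚ) : ℝ) < B t.1 ∧ 0 < N t.1 t.2.1 ∧
      N t.1 t.2.2.1 < N t.1 t.2.1 + (t.2.2.2 : ℝ)},
      x ∈ Ioo ((t.1.2.1 : ℚ) : ℝ) ((t.1.2.2.1 : ℚ) : ℝ) → ∃ θ : ℚ → ℚ → ℝ,
      IprI S' (fun J F => ptr F J) (fun J F => F.W) 0 (dQ (y t.1.1) (t.1.2.2.2 : ℝ))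
          (mQ (y t.1.1) (g t.1.1) (N t.1.1)) θ x := by
    rw [ae_all_iff]
    intro t
    obtain ⟨θ₀, θ, hθ⟩ := g3 t
    have hB := hB1 t.1.1
    have h3 := t.2.2.2.1
    have h4 := ipr_ae g1 hpos' (s := 0) (by linarith) (by linarith [t.2.2.1]) (fun w a b => by
      obtain ⟨η, hη⟩ := hη t.1.1 w (by linarith [t.2.1]) (by linarith)
      rw [add_zero]
      exact ⟨η, hη.sub g2⟩) ((rel_mlb htm hpos (hact _) (hB1 _) (hN _) t.2.1 t.2.2.2.1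
        t.2.2.2.2.1 t.2.2.2.2.2 (((t.1.2.2.1 : ℚ) : ℝ) - ((t.1.2.1 : ℚ) : ℝ))).sub g2) hθ
    filter_upwards [h4] with x hx hxI
    exact ⟨θ, hx hxI⟩
  filter_upwards [key, mono_ae (hN i).n0 (hN i).n1 (hN i).mono] with x hx hmx hw hxB P hP
  obtain ⟨w, w1, w2, w3⟩ := hw
  have hPR : (0 : ℝ) < P := by exact_mod_cast hP
  obtain ⟨a, b, a1, a2, b1, b2, hab⟩ := hmx (w1.trans w2) hxB P hPR
  obtain ⟨c, hc⟩ : ∃ c : ℚ, c = max a w := ⟨_, rfl⟩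
  have c1 : a ≤ c := by rw [hc]; exact le_max_left _ _
  have c2 : w ≤ c := by rw [hc]; exact le_max_right _ _
  have c3 : (c : ℝ) < x := by
    rw [hc, Rat.cast_max]
    exact max_lt a2 w2
  have c1' : (a : ℝ) ≤ c := by exact_mod_cast c1
  have c2' : (w : ℝ) ≤ c := by exact_mod_cast c2
  have k1 := (hN i).mono a c a1 c1 (by linarith)
  have k2 := (hN i).mono w c w1 c2 (by linarith)
  exact hx ⟨(i, c, b, P), by
    refine ⟨?_, ?_, ?_, ?_, ?_⟩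
    · show A i < (c : ℝ)
      linarith
    · show (c : ℝ) < b
      linarith
    · exact b2
    · show 0 < N i c
      linarith
    · show N i b < N i c + (P : ℝ)
      linarith⟩ ⟨c3, b1⟩

open Set MeasureTheory in
/-- **The record of the ball does not see the own velocity of** `g` behind its natural digits, in
the boxes of almost every point. -/
theorem mod_ipr {S : PCl m} (hS : S.Ne)
    (hpos : ∀ (τ : ℝ) (J : ℕ) (F : Fam m J) (A : F.Ω → Prop), S.St τ J F A → 0 < Pe F.p A)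
    {C₀ : ℝ} (htm : TmC S C₀) {y : Fin m} (hact : Pool.MIC6.ActF S y) {A B : ℝ} (hB1 : B ≤ 1)
    (hη : ∀ w : ℚ, A < w → (w : ℝ) < B → ∃ η, RNum S (fun J F => ptr F J) (vg (w : ℝ)) η)
    {g : ∀ (J : ℕ) (F : Fam m J), F.Ω → ℝ} {N : ℚ → ℝ} (hN : MNum S y g A B N) :
    ∃ S' : PCl m, S'.Ne ∧
      (∀ (τ : ℝ) (J : ℕ) (F : Fam m J) (A : F.Ω → Prop), S'.St τ J F A → S.St τ J F A) ∧
      ∀ᵐ x : ℝ, (∃ w : ℚ, A < w ∧ (w : ℝ) < x ∧ 0 < N w) → x < B → ∀ P : ℚ, 0 < P →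
        ∃ θ : ℚ → ℚ → ℝ, IprI S' (fun J F => ptr F J) (fun J F => F.W) 0 (dQ y P)
          (mQ y g N) θ x := by
  obtain ⟨S', h1, h2, h3⟩ := mod_ipr_ct (ι := Unit) hS hpos htm (fun _ => y) (fun _ => hact)
    (fun _ => A) (fun _ => B) (fun _ => hB1) (fun _ => hη) (fun _ => g) (fun _ => N)
    (fun _ => hN)
  exact ⟨S', h1, h2, h3 ()⟩

end Pool.ONE62
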