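import Pool.Agent.H55.ONE.Nfd

/-!
# The row of the height of the target, for the labels of a class, final form
-/

set_option autoImplicit false

namespace Pool.ONE62

open Finset Real
open Pool.Agent.H49.Ent Pool.Agent.H32.Dense Pool.STK Pool.KA Pool.KSAT Pool.K2S Pool.PB Pool.GEN
open Pool.S6C Pool.LA91 Pool.RCD Pool.OWN72 Pool.ONE72
open Pool.ALL (RateOf)
open Pool.STAT (ExW)

/-- **The row of the height of the target**, for the labels of the class. -/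
theorem nf_use {S : PCl 4} {C₀ : ℝ} (htm : TmC S C₀) {y u v t : Fin 4} (hyu : y ≠ u)
    (hyv : y ≠ v) (hyt : y ≠ t) (huv : u ≠ v) (hut : u ≠ t) (hvt : v ≠ t) {rr : ℝ → ℝ}
    (hr : RateOf S t rr)
    {κ : ∀ (J : ℕ) (F : Fam 4 J), PtT F → Fin 4 → ℝ} {w Nu Nv Nn : Fin 3 → ℝ}
    {Nl P E mr Mr M' e e2 s q av EE h ϖ ηr ηt dr : ℝ}
    (hn : NumC w Nu Nv Nn Nl P E mr Mr M' e e2 s q av) (hϖ : 0 < ϖ)
    (hE : ∀ ρ : ℝ, 0 < ρ → Bas S (fun J F A =>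
      ExW F A ![y, u, v] ⌊av * J⌋₊ ((EE - ρ) * Real.log 2 * J)))
    (hcount : 3 - w 1 - 2 * w 0 - Nu 0 - Nv 0 - 2 * mr + 2 * e + 3 * e2 - EE + q ≤ ηt)
    (hrate : ∀ a b : ℝ, w 0 + Nn 0 - e - q ≤ a → a ≤ b → b ≤ w 0 + Nn 0 + Mr →
      rr b - rr a ≤ (1 - h) * (b - a) + ηr)
    (hMm : Mr + s + q ≤ mr + e2) (h0 : h ≤ 1) (hηr : 0 ≤ ηr) (hηt : 0 ≤ ηt)
    (hsum : ηr + ηt + 4 * s + q ≤ dr) {e' : ℝ} (he' : 0 < e') (he'e : e' ≤ e) :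
    NfU S y u v t κ w Nu Nv Nn Nl E mr Mr e' s h ϖ dr := by
  refine nf_use_of hn (fun ρ η hρ hη => ?_) hcount hrate hMm h0 hηr hηt hsum he' he'e
  refine (Pool.ONE55.nfb_cls htm hyu hyv hyt huv hut hvt hr hn.av1 one_pos hϖ hη
    (hE ρ hρ)).mono 0 ?_
  intro J _ F A h1
  exact h1 A (fun _ h => h) (by rw [one_mul])

end Pool.ONE62
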